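import Pool.Agent.Lib.MP_ae5b4e_an_NB4.ExtC
import Pool.Agent.Lib.MP_ae5b4e_an_NB4C.LFin
import Pool.Agent.Lib.MP_ae5b4e_an_NB4C.NoLim
import Pool.Agent.Lib.MP_ae5b4e_an_NB4H.FinH

/-!
# MP_ae5b4e_an, project BS: the bounded case NB_4 is contradictory
-/

noncomputable section

namespace Pool.Agent.MP_ae5b4e_an_BS

open Complex Set Filter Topology Metric
open Pool.Agent.MP_ae5b4e_an_NBT
open Pool.Agent.MP_ae5b4e_an_NB2 (Sys)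
open Pool.Agent.MP_ae5b4e_an_NB4

/-- **Theorem NB_4**, abstract form -/
theorem no_bdd {Y : Sys} {h q₁ : ℝ} {q : ℕ} [NeZero q] {π₀ : ℂ} (H : Bdd Y h q₁ q π₀) : False := by
  obtain ⟨i, hL⟩ := extremal H
  obtain ⟨v, e, hv⟩ := Pool.Agent.MP_ae5b4e_an_NB4C.exists_lim H i hL
  exact Pool.Agent.MP_ae5b4e_an_NB4C.no_lim hv

/-- **Theorem NB_4**: a boundary line of finite height with bounded Schwarzian -/
theorem no_nbd_bdd {k : ℂ → ℂ} {F G : ℂ × ℂ → ℂ} {c h : ℝ} {Y : Sys} (hN : NBd k F c h G)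
    (hY : Pool.Agent.MP_ae5b4e_an_NB4H.SysOf Y G h) {C : ℝ}
    (hC : ∀ t ∈ St (-h) h, ‖Y.Q t‖ * (h - |t.im|) ^ 2 ≤ C) : False := by
  obtain ⟨q₁, q, hq, π₀, H⟩ := Pool.Agent.MP_ae5b4e_an_NB4H.exists_bdd hN hY hC
  exact no_bdd H

end Pool.Agent.MP_ae5b4e_an_BS
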