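import Pool.Agent.Lib.MP_ae5b4e_an_BS.Defs
import Pool.Agent.Lib.MP_ae5b4e_an_NBT.LabD
import Pool.Agent.Lib.MP_ae5b4e_an_SVC.Strip

/-!
# MP_ae5b4e_an, project BS: the locally univalent normal form of a curve on the plane
-/

noncomputable section

namespace Pool.Agent.MP_ae5b4e_an_BS

open Complex Set Filter Topology Metric
open Pool.Agent.MP_ae5b4e_an_NBT (LU St)
open Pool.Agent.MP_ae5b4e_an_SVC (Rg Crv)

/-- an analytic function does not agree with a function with a pole -/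
private theorem luu_pole {f g : ℂ → ℂ} {z : ℂ} (h : f =ᶠ[𝓝[≠] z] g) (hf : AnalyticAt ℂ f z)
    (h0 : g z = 0) (h1 : AnalyticAt ℂ (fun w => (g w)⁻¹) z)
    (h2 : deriv (fun w => (g w)⁻¹) z ≠ 0) : False := by
  have h4 : ∀ᶠ w in 𝓝[≠] z, (g w)⁻¹ ≠ (g z)⁻¹ :=
    h1.differentiableAt.hasDerivAt.eventually_ne h2
  have h5 : ∀ᶠ w in 𝓝[≠] z, (f w) * (g w)⁻¹ = 1 := by
    filter_upwards [h4, h] with w hw hw'
    rw [h0, inv_zero] at hw
    rw [hw']
    exact mul_inv_cancel₀ (fun h6 => hw (by rw [h6, inv_zero]))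
  have h6 : Tendsto (fun w => f w * (g w)⁻¹) (𝓝[≠] z) (𝓝 (f z * (g z)⁻¹)) :=
    (hf.continuousAt.mul h1.continuousAt).tendsto.mono_left nhdsWithin_le_nhds
  have h7 : Tendsto (fun w => f w * (g w)⁻¹) (𝓝[≠] z) (𝓝 1) :=
    tendsto_const_nhds.congr' (by filter_upwards [h5] with w hw; exact hw.symm)
  have h8 := tendsto_nhds_unique h6 h7
  rw [h0, inv_zero, mul_zero] at h8
  exact zero_ne_one h8

/-- Two functions which are locally univalent at `t` and agree near `t` off `t` agree near `t`: if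
both are analytic at `t`, by continuity; if one is analytic at `t` and the other one has a pole
(`g t = 0`, `g⁻¹` analytic with a simple zero at `t`) the values near `t` contradict each other; if
both have poles both are `0` at `t`. -/
theorem lu_eq {f g : ℂ → ℂ} {t : ℂ} (hf : LU f {t}) (hg : LU g {t}) (h : f =ᶠ[𝓝[≠] t] g) :
    f =ᶠ[𝓝 t] g := by
  have key : f t = g t := by
    rcases hf t rfl with ⟨hf1, hf2⟩ | ⟨hf1, hf2, hf3⟩
    · rcases hg t rfl with ⟨hg1, hg2⟩ | ⟨hg1, hg2, hg3⟩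
      · have h1 : Tendsto f (𝓝[≠] t) (𝓝 (f t)) :=
          hf1.continuousAt.tendsto.mono_left nhdsWithin_le_nhds
        have h2 : Tendsto g (𝓝[≠] t) (𝓝 (g t)) :=
          hg1.continuousAt.tendsto.mono_left nhdsWithin_le_nhds
        exact tendsto_nhds_unique (h1.congr' h) h2
      · exact (luu_pole h hf1 hg1 hg2 hg3).elim
    · rcases hg t rfl with ⟨hg1, hg2⟩ | ⟨hg1, hg2, hg3⟩
      · exact (luu_pole h.symm hg1 hf1 hf2 hf3).elim
      · rw [hf1, hg1]
  have h' := eventually_nhdsWithin_iff.1 h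
  filter_upwards [h'] with s hs
  by_cases hst : s = t
  · rw [hst, key]
  · exact hs hst

/-- local univalence is an open condition -/
private theorem luu_open {g : ℂ → ℂ} {t : ℂ} (hg : LU g {t}) : ∀ᶠ s in 𝓝 t, LU g {s} := by
  rcases hg t rfl with ⟨h1, h2⟩ | ⟨h1, h2, h3⟩
  · have h4 : ∀ᶠ s in 𝓝 t, deriv g s ≠ 0 := h1.deriv.continuousAt.eventually_ne h2
    filter_upwards [h1.eventually_analyticAt, h4] with s hs hs'
    intro z hz
    have hz' : z = s := hz
    rw [hz']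
    exact Or.inl ⟨hs, hs'⟩
  · have h4 : ∀ᶠ s in 𝓝 t, deriv (fun w => (g w)⁻¹) s ≠ 0 :=
      h2.deriv.continuousAt.eventually_ne h3
    filter_upwards [h2.eventually_analyticAt, h4] with s hs hs'
    intro z hz
    have hz' : z = s := hz
    rw [hz']
    by_cases h0 : g s = 0
    · exact Or.inr ⟨h0, hs, hs'⟩
    · left
      have h5 : AnalyticAt ℂ (fun w => ((g w)⁻¹)⁻¹) s := hs.inv (inv_ne_zero h0)
      have h6 : (fun w => ((g w)⁻¹)⁻¹) = g := by
        funext w
        rw [inv_inv]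
      rw [h6] at h5
      refine ⟨h5, fun h7 => hs' ?_⟩
      have h8 : HasDerivAt (fun w => (g w)⁻¹) (-(deriv g s) / g s ^ 2) s :=
        h5.differentiableAt.hasDerivAt.inv h0
      rw [h8.deriv, h7, neg_zero, zero_div]

private theorem luu_congr {f g : ℂ → ℂ} {t : ℂ} (hg : LU g {t}) (h : f =ᶠ[𝓝 t] g) :
    LU f {t} := by
  intro z hz
  have hz' : z = t := hz
  rw [hz']
  have h' : (fun w => (f w)⁻¹) =ᶠ[𝓝 t] fun w => (g w)⁻¹ := by
    filter_upwards [h] with w hw
    rw [hw]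
  rcases hg t rfl with ⟨h1, h2⟩ | ⟨h1, h2, h3⟩
  · left
    exact ⟨(analyticAt_congr h).2 h1, by rwa [h.deriv_eq]⟩
  · right
    exact ⟨by rw [h.eq_of_nhds, h1], (analyticAt_congr h').2 h2, by rwa [h'.deriv_eq]⟩

/-- `f' t := g t`, where `g` is a choice of the function of the hypothesis at `t`. If `s ≠ t` is near
`t` then `g_s = f = g_t` near `s` (punctured), both are locally univalent at `s` (the condition
`LU g {t}` is open: `LU g {s}` for `s` near `t`), so `g_s s = g_t s` by `lu_eq`: `f' = g_t` near `t`.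
At real points `f` is analytic with nonzero derivative, so `LU f {t}` and `f' = f` near `t`. -/
theorem exists_luU {f : ℂ → ℂ} (H : ∀ h > 0, Crv f h)
    (hg : ∀ t : ℂ, ∃ g : ℂ → ℂ, LU g {t} ∧ g =ᶠ[𝓝[≠] t] f) :
    ∃ f' : ℂ → ℂ, LU f' univ ∧ (∀ t, f' =ᶠ[𝓝[≠] t] f) ∧ (∀ t : ℝ, f' =ᶠ[𝓝 (t : ℂ)] f) ∧
      ∀ h > 0, Crv f' h := by
  choose g hg1 hg2 using hg
  have key : ∀ t, (fun s => g s s) =ᶠ[𝓝 t] g t := by
    intro t
    have h1 := luu_open (hg1 t)
    have h2 : ∀ᶠ s in 𝓝[≠] t, g t =ᶠ[𝓝 s] f := by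
      have h3 := eventually_eventually_nhdsWithin.2 (hg2 t)
      have h4 : ∀ᶠ s in 𝓝[≠] t, s ≠ t := self_mem_nhdsWithin
      filter_upwards [h3, h4] with s hs hs'
      have h5 : s ∈ ({t}ᶜ : Set ℂ) := hs'
      rw [isOpen_compl_singleton.nhdsWithin_eq h5] at hs
      exact hs
    have h2' := eventually_nhdsWithin_iff.1 h2
    filter_upwards [h1, h2'] with s hs1 hs2
    by_cases hst : s = t
    · rw [hst]
    · have h3 := hs2 hst
      have h4 : g s =ᶠ[𝓝[≠] s] g t := (hg2 s).trans (h3.symm.filter_mono nhdsWithin_le_nhds)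
      exact (lu_eq (hg1 s) hs1 h4).eq_of_nhds
  have hLU : LU (fun s => g s s) univ := by
    intro t _
    exact luu_congr (hg1 t) (key t) t rfl
  have hne : ∀ t, (fun s => g s s) =ᶠ[𝓝[≠] t] f := fun t =>
    ((key t).filter_mono nhdsWithin_le_nhds).trans (hg2 t)
  have hre : ∀ t : ℝ, (fun s => g s s) =ᶠ[𝓝 (t : ℂ)] f := by
    intro t
    refine lu_eq (luu_congr (hg1 t) (key t)) ?_ (hne t)
    rintro _ rfl
    exact Or.inl ⟨(H 1 one_pos).an t, (H 1 one_pos).dr t⟩
  have hrv : ∀ t : ℝ, g t t = f t := fun t => (hre t).eq_of_nhds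
  refine ⟨fun s => g s s, hLU, hne, hre, ?_⟩
  intro h hh
  have Hh := H h hh
  refine ⟨Hh.pos, ?_, ?_, ?_, ?_, ?_, ?_⟩
  · intro t ht
    exact (Hh.mer t ht).congr (hne t).symm
  · intro t
    exact (analyticAt_congr (hre t)).2 (Hh.an t)
  · intro t
    rw [(hre t).deriv_eq]
    exact Hh.dr t
  · intro t
    show ‖g t t‖ = 1
    rw [hrv]
    exact Hh.circ t
  · intro s t hst
    change g s s = g t t at hst
    rw [hrv, hrv] at hst
    exact Hh.inj s t hst
  · intro t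
    have h1 := hrv (t + 1)
    push_cast at h1
    show g (t + 1) (t + 1) = g t t
    rw [h1, hrv]
    exact Hh.per t

end Pool.Agent.MP_ae5b4e_an_BS
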