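import Pool.Agent.Lib.MP_ae5b4e_an_BS.Defs
import Pool.Agent.Lib.MP_ae5b4e_an_NB2.Sys
import Pool.Agent.Lib.MP_ae5b4e_an_SVC.Strip
import Pool.Agent.Lib.MP_ae5b4e_an_FV.Quot

/-!
# MP_ae5b4e_an, project BS: constant potential
-/

noncomputable section

namespace Pool.Agent.MP_ae5b4e_an_BS

open Complex Set Filter Topology Metric
open Pool.Agent.MP_ae5b4e_an_NB2 (Sys)
open Pool.Agent.MP_ae5b4e_an_SVC (Rg Val Crv)

/-- two solutions with the same initial values are equal -/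
private lemma QConst_uniq {Y : Sys} (hY : Y.On univ) {q : ℂ} (hq : ∀ t, Y.Q t = q) (l : ℂ)
    {S S' : ℂ → ℂ} (h1 : ∀ w, HasDerivAt S (S' w) w) (h2 : ∀ w, HasDerivAt S' (-(q * S w)) w)
    (h3 : S l = 0) (h4 : S' l = 1) (w : ℂ) : Y.s w l = S w := by
  have h := Pool.Agent.Lib.MP_ae5b4e_an_LL.ode_unique (c := l) (R := dist w l + 1)
    (Q := fun _ => q) (y := fun w => Y.s w l - S w) (y' := fun w => Y.sd w l - S' w)
    continuousOn_const
    (fun z _ => (Sys.hasDerivAt_s hY (mem_univ z)).sub (h1 z))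
    (fun z _ => by
      have := (Sys.hasDerivAt_sd (l := l) hY (mem_univ z)).sub (h2 z)
      refine this.congr_deriv ?_
      rw [hq]
      ring)
    (by
      show Y.s l l - S l = 0
      rw [Sys.s_self, h3, sub_zero])
    (by
      show Y.sd l l - S' l = 0
      rw [Sys.sd_self hY (mem_univ l), h4, sub_self]) w (by rw [mem_ball]; linarith)
  exact sub_eq_zero.1 h

private lemma QConst_rg {f : ℂ → ℂ} {Y : Sys} (hY : Y.On univ)
    (hf : ∀ t, Y.y1 t ≠ 0 → f t = Y.y2 t / Y.y1 t) {u : ℂ} (hu : AnalyticAt ℂ f u) :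
    Y.y1 u ≠ 0 := by
  intro h0
  have hwr := hY.wr u (mem_univ u)
  rw [h0, zero_mul, zero_sub] at hwr
  have hy2 : Y.y2 u ≠ 0 := by
    intro h
    rw [h, mul_zero, neg_zero] at hwr
    exact zero_ne_one hwr
  have hy1' : Y.y1' u ≠ 0 := by
    intro h
    rw [h, zero_mul, neg_zero] at hwr
    exact zero_ne_one hwr
  have h1 : ∀ᶠ z in 𝓝[≠] u, Y.y1 z ≠ 0 := (hY.d1 u (mem_univ u)).eventually_ne hy1'
  have h2 : Tendsto (fun z => f z * Y.y1 z) (𝓝[≠] u) (𝓝 (f u * Y.y1 u)) :=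
    ((hu.continuousAt.mul (hY.d1 u (mem_univ u)).continuousAt).tendsto).mono_left
      nhdsWithin_le_nhds
  have h3 : Tendsto Y.y2 (𝓝[≠] u) (𝓝 (Y.y2 u)) :=
    (hY.d2 u (mem_univ u)).continuousAt.tendsto.mono_left nhdsWithin_le_nhds
  have h4 : (fun z => f z * Y.y1 z) =ᶠ[𝓝[≠] u] Y.y2 := by
    filter_upwards [h1] with z hz
    rw [hf z hz, div_mul_cancel₀ _ hz]
  have h5 := tendsto_nhds_unique (h2.congr' h4) h3
  rw [h0, mul_zero] at h5
  exact hy2 h5.symm

/-- Let `a ^ 2 = q`. For fixed `l` the function `w ↦ s (w, l)` solves `s'' = - q s`, `s (l, l) = 0`,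
`s' (l, l) = 1` (NB2/Sys: `hasDerivAt_s`, `hasDerivAt_sd`; uniqueness: `ode_unique` of LL/Ode on
large discs), so `s (w, l) = sin (a (w - l)) / a`, or `w - l` if `a = 0`. At a regular point of `f`
one has `y1 ≠ 0` (if `y1 u = 0` then `y2 u ≠ 0` by the Wronskian and `f = y2 / y1` tends to infinity
at `u` along the punctured neighbourhood), and for two points with `y1 ≠ 0` one has `f u = f v` iff
`s (u, v) = 0` (FV/Quot `quot_eq`). Real points are regular (`Crv.an`, `Crv.dr`). `f 1 = f 0`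
(`Crv.per`) gives `s (1, 0) = 0`: so `a ≠ 0` and `a = π m` with an integer `m ≠ 0`. Then
`s (1 / m, 0) = 0`, so `f (1 / m) = f 0` and `1 / m` is an integer by `Crv.inj`: `m = ± 1`. Finally
`f (u 0) = f (u 1)` gives `sin (π (u 1 - u 0)) = 0`, so `u 1 - u 0` is an integer. -/
theorem val_of_const {f : ℂ → ℂ} {Y : Sys} (H : ∀ h > 0, Crv f h) (hY : Y.On univ)
    (hf : ∀ t, Y.y1 t ≠ 0 → f t = Y.y2 t / Y.y1 t) {q : ℂ} (hq : ∀ t, Y.Q t = q) :
    Val f univ 1 := by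
  have H1 := H 1 one_pos
  have hf' : ∀ t ∈ (univ : Set ℂ), Y.y1 t ≠ 0 → f t = Y.y2 t / Y.y1 t := fun t _ => hf t
  have hreal : ∀ t : ℝ, Y.y1 t ≠ 0 := fun t => QConst_rg hY hf (H1.an t)
  have hper : f ((1 : ℝ) : ℂ) = f ((0 : ℝ) : ℂ) := by
    have := H1.per 0
    rw [← this]
    congr 1
    push_cast
    ring
  have hs10 : Y.s ((1 : ℝ) : ℂ) ((0 : ℝ) : ℂ) = 0 :=
    (Pool.Agent.MP_ae5b4e_an_FV.quot_eq hf' (mem_univ _) (mem_univ _) (hreal 1) (hreal 0)).2 hper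
  obtain ⟨a, ha⟩ : ∃ a : ℂ, a ^ 2 = q := IsAlgClosed.exists_pow_nat_eq q (by norm_num)
  by_cases ha0 : a = 0
  · exfalso
    have hq0 : q = 0 := by rw [← ha, ha0]; ring
    have h1 := QConst_uniq hY hq ((0 : ℝ) : ℂ) (S := fun w => w - ((0 : ℝ) : ℂ))
      (S' := fun _ => 1) (fun w => (hasDerivAt_id w).sub_const _)
      (fun w => (hasDerivAt_const w (1 : ℂ)).congr_deriv (by rw [hq0]; ring))
      (sub_self _) rfl ((1 : ℝ) : ℂ)
    rw [hs10] at h1
    simp at h1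
  have hs : ∀ w l, Y.s w l = Complex.sin (a * (w - l)) / a := by
    intro w l
    have hlin : ∀ w, HasDerivAt (fun w => a * (w - l)) a w := fun w => by
      have := ((hasDerivAt_id w).sub_const l).const_mul a
      simpa using this
    refine QConst_uniq hY hq l (S := fun w => Complex.sin (a * (w - l)) / a)
      (S' := fun w => Complex.cos (a * (w - l))) (fun w => ?_) (fun w => ?_) ?_ ?_ w
    · refine ((hlin w).csin.div_const a).congr_deriv ?_
      field_simp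
    · refine (hlin w).ccos.congr_deriv ?_
      rw [← ha]
      field_simp
    · simp
    · simp
  rw [hs] at hs10
  have hsin : Complex.sin a = 0 := by
    have h1 := (div_eq_zero_iff.1 hs10).resolve_right ha0
    simpa using h1
  obtain ⟨m, hm⟩ := Complex.sin_eq_zero_iff.1 hsin
  have hm0 : m ≠ 0 := by
    rintro rfl
    exact ha0 (by rw [hm]; simp)
  have hmR : (m : ℝ) ≠ 0 := by exact_mod_cast hm0
  have hmC : (m : ℂ) ≠ 0 := by exact_mod_cast hm0
  have hpi : (Real.pi : ℂ) ≠ 0 := by exact_mod_cast Real.pi_ne_zero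
  have h2 : f (((m : ℝ)⁻¹ : ℝ) : ℂ) = f ((0 : ℝ) : ℂ) := by
    refine (Pool.Agent.MP_ae5b4e_an_FV.quot_eq hf' (mem_univ _) (mem_univ _) (hreal _)
      (hreal 0)).1 ?_
    rw [hs]
    have : a * ((((m : ℝ)⁻¹ : ℝ) : ℂ) - ((0 : ℝ) : ℂ)) = Real.pi := by
      rw [hm]
      push_cast
      field_simp
      ring
    rw [this, Complex.sin_pi, zero_div]
  obtain ⟨n, hn⟩ := H1.inj _ _ h2
  have hmn : m * n = 1 := by
    have h3 : (m : ℝ) * n = 1 := by
      rw [zero_add] at hn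
      rw [← hn]
      exact mul_inv_cancel₀ hmR
    exact_mod_cast h3
  intro u hu
  refine ⟨0, 1, by decide, ?_⟩
  have h3 : Y.s (u 1) (u 0) = 0 :=
    (Pool.Agent.MP_ae5b4e_an_FV.quot_eq hf' (mem_univ _) (mem_univ _)
      (QConst_rg hY hf (hu 1).2.1.1) (QConst_rg hY hf (hu 0).2.1.1)).2 (hu 1).2.2
  rw [hs] at h3
  obtain ⟨j, hj⟩ := Complex.sin_eq_zero_iff.1 ((div_eq_zero_iff.1 h3).resolve_right ha0)
  refine ⟨j * n, ?_⟩
  have h4 : (m : ℂ) * (u 1 - u 0) = j := by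
    rw [hm] at hj
    have h5 : (Real.pi : ℂ) * ((m : ℂ) * (u 1 - u 0)) = Real.pi * j := by
      linear_combination hj
    exact mul_left_cancel₀ hpi h5
  have h5 : (m : ℂ) * n = 1 := by exact_mod_cast hmn
  have h6 : u 1 - u 0 = j * n := by
    calc u 1 - u 0 = (m : ℂ) * n * (u 1 - u 0) := by rw [h5, one_mul]
      _ = (m : ℂ) * (u 1 - u 0) * n := by ring
      _ = j * n := by rw [h4]
  push_cast
  linear_combination h6

end Pool.Agent.MP_ae5b4e_an_BS
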