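import Pool.Agent.Lib.MP_ae5b4e_an_FV.Fin
import Pool.Agent.Lib.MP_ae5b4e_an_NBT.Rot
import Pool.Agent.Lib.MP_ae5b4e_an_BS.SysU
import Pool.Agent.Lib.MP_ae5b4e_an_BS.QConst
import Pool.Agent.Lib.MP_ae5b4e_an_BS.LuU

/-!
# MP_ae5b4e_an, project BS: the dichotomy finite height / entire curve
-/

noncomputable section

namespace Pool.Agent.MP_ae5b4e_an_BS

open Complex Set Filter Topology Metric
open scoped Polynomial
open Pool.Agent.MP_ae5b4e_an_NBT
open Pool.Agent.MP_ae5b4e_an_SVC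
open Pool.Agent.MP_ae5b4e_an_FV
open Pool.Agent.MP_ae5b4e_an_NB2 (Sys)

variable {k f : ℂ → ℂ} {F : ℂ × ℂ → ℂ} {h c : ℝ}

/-- the limit curve is meromorphic in the plane, and the family extends near `ρ = 0` to every
height -/
structure AllH (k : ℂ → ℂ) (F : ℂ × ℂ → ℂ) (c : ℝ) (f : ℂ → ℂ) : Prop where
  con : Con k F c
  crv : ∀ h > 0, Crv f h
  eq : f =ᶠ[𝓝 (0:ℂ)] fun t => F (t, 0)
  hgt : ∀ y : ℝ, ExtM F c (c / 4) y 0
  ext : ∀ h > c, ∃ G : ℂ × ℂ → ℂ, ConE k F c h G ∧ Crv (sl G 0) h ∧ sl G 0 =ᶠ[𝓝 (0:ℂ)] f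

theorem dichotomy (hC : Con k F c) :
    (∃ (h : ℝ) (G : ℂ × ℂ → ℂ), NBd k F (c / 2) h G ∧ Crv (sl G 0) h ∧
      sl G 0 =ᶠ[𝓝 (0:ℂ)] fun t => F (t, 0)) ∨ ∃ f : ℂ → ℂ, AllH k F (c / 2) f := by
  have hc : 0 < c := hC.pos
  set f₀ : ℂ → ℂ := fun t => F (t, 0) with hf₀
  have H₀ : Crv f₀ c := crv_of_con hC
  have hcc : Con k F (c / 2) := con_mono hC (by linarith) (by linarith)
  set S : Set ℝ := {y | ExtM F (c / 2) (c / 2 / 4) y 0} with hS
  have hdown : ∀ y ∈ S, ∀ y' ≤ y, y' ∈ S := by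
    rintro y ⟨δ, hδ, hsub, G, hG, hGF⟩ y' hy'
    exact ⟨δ, hδ, hsub, G, hG.mono (prod_mono (fun t ht => ⟨ht.1, by linarith [ht.2]⟩) subset_rfl),
      fun p hp => hGF p ⟨⟨hp.1.1, lt_min (hp.1.2.trans_le (min_le_left _ _))
        ((hp.1.2.trans_le (min_le_right _ _)).trans_le hy')⟩, hp.2⟩⟩
  have hcS : c ∈ S := by
    refine ⟨c / 2 / 4, by linarith, subset_rfl, F, ?_, fun p _ => EqM.refl F p⟩
    exact Mer.of_analytic fun p hp => hC.an p
      ⟨⟨by linarith [hp.1.1], hp.1.2⟩, ball_subset_ball (by linarith) hp.2⟩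
  have hconE : ∀ h : ℝ, c / 2 < h → (∀ y < h, y ∈ S) → ∃ G : ℂ × ℂ → ℂ,
      ConE k F (c / 2) h G ∧ Crv (sl G 0) h ∧ sl G 0 =ᶠ[𝓝 (0:ℂ)] f₀ := by
    intro h hh hy
    obtain ⟨G, hE⟩ := exists_conE hcc hh hy
    obtain ⟨H1, H2⟩ := crv_of_conE hE
    refine ⟨G, hE, H1, ?_⟩
    have : ∀ᶠ t : ℂ in 𝓝 0, |t.im| < c / 2 := by
      have h1 : ContinuousAt (fun t : ℂ => |t.im|) 0 := by fun_prop
      exact h1.eventually_lt continuousAt_const (by simpa using hc)
    filter_upwards [this] with t ht1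
    rw [H2 t ht1]
  by_cases hbdd : BddAbove S
  · left
    set h := sSup S with hh
    have hch : c ≤ h := le_csSup hbdd hcS
    have hlt : ∀ y < h, y ∈ S := by
      intro y hy
      obtain ⟨y', hy', hyy'⟩ := exists_lt_of_lt_csSup ⟨c, hcS⟩ hy
      exact hdown y' hy' y hyy'.le
    have hgt : ∀ y > h, y ∉ S := fun y hy hyS => absurd (le_csSup hbdd hyS) (not_le.2 hy)
    obtain ⟨G, hE, H1, H2⟩ := hconE h (by linarith) hlt
    exact ⟨h, G, nb_one hE hgt, H1, H2⟩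
  · right
    have hall : ∀ y, y ∈ S := by
      intro y
      rw [not_bddAbove_iff] at hbdd
      obtain ⟨y', hy', hyy'⟩ := hbdd y
      exact hdown y' hy' y hyy'.le
    rcases exists_max H₀ with ⟨f, h', hch', H, hM, hff⟩ | ⟨f, H, hff⟩
    · exfalso
      obtain ⟨G, hE, H1, H2⟩ := hconE (h' + 1) (by linarith) fun y _ => hall y
      exact hM (h' + 1) (by linarith) _ H1.mer (H2.trans hff.symm)
    · refine ⟨f, hcc, H, hff, hall, fun h hh => ?_⟩
      obtain ⟨G, hE, H1, H2⟩ := hconE h hh fun y _ => hall y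
      exact ⟨G, hE, H1, H2.trans hff.symm⟩

/-- an affine symmetry of an entire curve -/
theorem rational_of_sym (hA : AllH k F c f) {A B : ℂ} (h0 : A ≠ 0)
    (hs : ∀ s : ℂ, (fun w => f (A * w + B)) =ᶠ[𝓝[≠] s] f) (hne : ¬ (A = 1 ∧ ∃ n : ℤ, B = n)) :
    ∃ A B : ℂ[X], B ≠ 0 ∧ ∀ᶠ x in 𝓝 (F (0, 0)), k x * B.eval x = A.eval x := by
  obtain ⟨w₀, hw₀, hper⟩ := sy_inf hA.crv h0 hs hne
  have R0 : Rg f 0 := by
    have := (hA.crv 1 one_pos).an 0
    have h2 := (hA.crv 1 one_pos).dr 0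
    rw [ofReal_zero] at this h2
    exact ⟨this, h2⟩
  obtain ⟨P, hP, hPe⟩ := alg_of_ell hA.crv hw₀ hper R0
  exact rational_con hA.con hA.eq hP hPe

theorem rational_of_val (hA : AllH k F c f) {N : ℕ} (hV : Val f univ N) :
    ∃ A B : ℂ[X], B ≠ 0 ∧ ∀ᶠ x in 𝓝 (F (0, 0)), k x * B.eval x = A.eval x := by
  have R0 : Rg f 0 := by
    have := (hA.crv 1 one_pos).an 0
    have h2 := (hA.crv 1 one_pos).dr 0
    rw [ofReal_zero] at this h2
    exact ⟨this, h2⟩
  obtain ⟨P, hP, hPe⟩ := alg_of_val hA.crv hV R0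
  exact rational_con hA.con hA.eq hP hPe

/-- a symmetry near one point is a symmetry everywhere -/
theorem sym_all (H : ∀ h > 0, Crv f h) {A B t₁ : ℂ} (h0 : A ≠ 0)
    (he : ∃ᶠ s in 𝓝[≠] t₁, f (A * s + B) = f s) (s : ℂ) :
    (fun w => f (A * w + B)) =ᶠ[𝓝[≠] s] f := by
  set h := max (max |t₁.im| |(A * t₁ + B).im|) (max |s.im| |(A * s + B).im|) + 1 with hh
  have m1 := le_max_left (max |t₁.im| |(A * t₁ + B).im|) (max |s.im| |(A * s + B).im|)
  have m2 := le_max_right (max |t₁.im| |(A * t₁ + B).im|) (max |s.im| |(A * s + B).im|)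
  have h1 : |t₁.im| < h := by linarith [le_max_left |t₁.im| |(A * t₁ + B).im|]
  have h2 : |(A * t₁ + B).im| < h := by linarith [le_max_right |t₁.im| |(A * t₁ + B).im|]
  have h3 : |s.im| < h := by linarith [le_max_left |s.im| |(A * s + B).im|]
  have h4 : |(A * s + B).im| < h := by linarith [le_max_right |s.im| |(A * s + B).im|]
  have hpos : 0 < h := (abs_nonneg _).trans_lt h1
  exact (sy_of_germ (H h hpos) h0 (abs_lt.1 h1) (abs_lt.1 h2) he).eq s (abs_lt.1 h3) (abs_lt.1 h4)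

/-- the data of an entire curve without critical points and with a non-constant potential -/
structure EntC (f : ℂ → ℂ) (Y : Sys) : Prop where
  lu : LU f univ
  crv : ∀ h > 0, Crv f h
  on : Y.On univ
  quot : ∀ t, (Y.y1 t ≠ 0 → f t = Y.y2 t / Y.y1 t) ∧ (Y.y1 t = 0 → f t = 0)
  nc : ¬ ∃ q : ℂ, ∀ t, Y.Q t = q
  nosym : ∀ A B : ℂ, A ≠ 0 → (∀ s : ℂ, (fun w => f (A * w + B)) =ᶠ[𝓝[≠] s] f) →
    A = 1 ∧ ∃ n : ℤ, B = n

theorem AllH.congr (hA : AllH k F c f) {f' : ℂ → ℂ} (H : ∀ h > 0, Crv f' h)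
    (h0 : f' =ᶠ[𝓝 (0:ℂ)] f) : AllH k F c f' :=
  ⟨hA.con, H, h0.trans hA.eq, hA.hgt, fun h hh => by
    obtain ⟨G, h1, h2, h3⟩ := hA.ext h hh
    exact ⟨G, h1, h2, h3.trans h0.symm⟩⟩

theorem entire_case (hA : AllH k F c f) :
    (∃ A B : ℂ[X], B ≠ 0 ∧ ∀ᶠ x in 𝓝 (F (0, 0)), k x * B.eval x = A.eval x) ∨
      ∃ (f' : ℂ → ℂ) (Y : Sys), AllH k F c f' ∧ EntC f' Y := by
  have hc : 0 < c := hA.con.pos
  by_cases hnosym : ∀ A B : ℂ, A ≠ 0 → (∀ s : ℂ, (fun w => f (A * w + B)) =ᶠ[𝓝[≠] s] f) →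
      A = 1 ∧ ∃ n : ℤ, B = n
  swap
  · left
    push Not at hnosym
    obtain ⟨A, B, h0, hs, hne⟩ := hnosym
    exact rational_of_sym hA h0 hs fun h => by
      obtain ⟨h1, n, hn⟩ := h
      exact hne h1 n hn
  by_cases hcrit : ∃ (h : ℝ) (G : ℂ × ℂ → ℂ) (t₀ : ℂ), c < h ∧ ConE k F c h G ∧ Crv (sl G 0) h ∧
      sl G 0 =ᶠ[𝓝 (0:ℂ)] f ∧ |t₀.im| < h ∧ ¬ FamAt G t₀
  · left
    obtain ⟨h, G, t₀, hch, hE, H1, H2, ht₀, hfam⟩ := hcrit
    have hh : 0 < h := hc.trans hch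
    obtain ⟨ω, hω, hω1, hev⟩ := rot_of_crit hE ht₀ hfam
    have hω0 : ω ≠ 0 := by
      rintro rfl
      simp at hω
    have hgf : ∀ t ∈ St (-h) h, sl G 0 =ᶠ[𝓝[≠] t] f := by
      intro t ht
      have := (H1.unique (hA.crv h hh) H2).2 t (by simpa using ht)
      exact this
    have htS : t₀ ∈ St (-h) h := abs_lt.1 ht₀
    have h1 : ∀ᶠ s in 𝓝[≠] t₀, f (ω * s + (t₀ - ω * t₀)) = f s := by
      have e1 : Tendsto (fun s => s - t₀) (𝓝[≠] t₀) (𝓝[≠] 0) := by
        rw [tendsto_nhdsWithin_iff]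
        refine ⟨?_, ?_⟩
        · have : Tendsto (fun s : ℂ => s - t₀) (𝓝 t₀) (𝓝 (t₀ - t₀)) :=
            (continuous_id.sub continuous_const).tendsto t₀
          rw [sub_self] at this
          exact this.mono_left nhdsWithin_le_nhds
        · filter_upwards [self_mem_nhdsWithin] with s hs
          exact sub_ne_zero.2 hs
      have e2 : Tendsto (fun s => ω * s + (t₀ - ω * t₀)) (𝓝[≠] t₀) (𝓝[≠] t₀) := by
        rw [tendsto_nhdsWithin_iff]
        refine ⟨?_, ?_⟩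
        · have : Tendsto (fun s : ℂ => ω * s + (t₀ - ω * t₀)) (𝓝 t₀)
              (𝓝 (ω * t₀ + (t₀ - ω * t₀))) := by
            have : Continuous fun s : ℂ => ω * s + (t₀ - ω * t₀) := by fun_prop
            exact this.tendsto t₀
          rw [add_sub_cancel] at this
          exact this.mono_left nhdsWithin_le_nhds
        · filter_upwards [self_mem_nhdsWithin] with s hs h
          apply hs
          have h2 : ω * (s - t₀) = 0 := by
            have : ω * s + (t₀ - ω * t₀) = t₀ := h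
            linear_combination this
          have := (mul_eq_zero.1 h2).resolve_left hω0
          exact sub_eq_zero.1 this
      filter_upwards [e1.eventually hev, e2.eventually (hgf t₀ htS), hgf t₀ htS] with s a1 a2 a3
      have b1 : t₀ + ω * (s - t₀) = ω * s + (t₀ - ω * t₀) := by ring
      have b2 : t₀ + (s - t₀) = s := by ring
      rw [b1, b2] at a1
      rw [← a2, ← a3, a1]
    have hs := sym_all hA.crv hω0 h1.frequently
    exact rational_of_sym hA hω0 hs fun h => hω1 h.1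
  · have hlu : ∀ t : ℂ, ∃ g : ℂ → ℂ, LU g {t} ∧ g =ᶠ[𝓝[≠] t] f := by
      intro t
      set h := max c |t.im| + 1 with hh
      have hch : c < h := by linarith [le_max_left c |t.im|]
      have hth : |t.im| < h := by linarith [le_max_right c |t.im|]
      have hpos : 0 < h := hc.trans hch
      obtain ⟨G, hE, H1, H2⟩ := hA.ext h hch
      refine ⟨sl G 0, FamAt.lu ?_, ?_⟩
      · by_contra hcon
        exact hcrit ⟨h, G, t, hch, hE, H1, H2, hth, hcon⟩
      · exact (H1.unique (hA.crv h hpos) H2).2 t (by rw [min_self]; exact abs_lt.1 hth)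
    obtain ⟨f', hLU, he, hr, H'⟩ := exists_luU hA.crv hlu
    have hA' : AllH k F c f' := hA.congr H' (by simpa using hr 0)
    obtain ⟨Y, hY, hYf⟩ := exists_sysU hLU
    have hnosym' : ∀ A B : ℂ, A ≠ 0 → (∀ s : ℂ, (fun w => f' (A * w + B)) =ᶠ[𝓝[≠] s] f') →
        A = 1 ∧ ∃ n : ℤ, B = n := by
      intro A B h0 hs
      refine hnosym A B h0 fun s => ?_
      have e2 : Tendsto (fun w => A * w + B) (𝓝[≠] s) (𝓝[≠] (A * s + B)) := by
        rw [tendsto_nhdsWithin_iff]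
        refine ⟨?_, ?_⟩
        · have : Continuous fun w : ℂ => A * w + B := by fun_prop
          exact (this.tendsto s).mono_left nhdsWithin_le_nhds
        · filter_upwards [self_mem_nhdsWithin] with w hw h
          apply hw
          have h2 : A * (w - s) = 0 := by
            have : A * w + B = A * s + B := h
            linear_combination this
          exact sub_eq_zero.1 ((mul_eq_zero.1 h2).resolve_left h0)
      filter_upwards [hs s, he s, e2.eventually (he (A * s + B))] with w a1 a2 a3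
      rw [← a3, ← a2]
      exact a1
    by_cases hq : ∃ q : ℂ, ∀ t, Y.Q t = q
    · left
      obtain ⟨q, hq⟩ := hq
      exact rational_of_val hA' (val_of_const H' hY (fun t => (hYf t).1) hq)
    · right
      exact ⟨f', Y, hA', ⟨hLU, H', hY, hYf, hq, hnosym'⟩⟩

end Pool.Agent.MP_ae5b4e_an_BS
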