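import Pool.Agent.Lib.MP_ae5b4e_an_BS.Fin

/-!
# MP_ae5b4e_an, project BS: fields which are uniformly locally finitely branched along the
projective parameter
-/

noncomputable section

namespace Pool.Agent.MP_ae5b4e_an_BS

open Complex Set Filter Topology Metric
open scoped Polynomial ContDiff
open Pool.Agent.MP_ae5b4e_an_NBT
open Pool.Agent.MP_ae5b4e_an_SVC
open Pool.Agent.MP_ae5b4e_an_FV
open Pool.Agent.MP_ae5b4e_an_NB2 (Sys Lab exists_lab)

variable {k f : ℂ → ℂ} {F G : ℂ × ℂ → ℂ} {h c ε : ℝ} {N : ℕ}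

/-- The field continued along the curve `f`: if `f t = exp (i θ t)` for real `t` and
`θ'' = - κ (θ) θ' ^ 2 / 2`, then `fld f t = κ (θ t)` for real `t`. -/
def fld (f : ℂ → ℂ) (s : ℂ) : ℂ := 2 * I * (1 - f s * deriv (deriv f) s / deriv f s ^ 2)

/-- among `N + 1` regular points of `D` with the same value two carry the same germ of the field -/
def LBr (f : ℂ → ℂ) (D : Set ℂ) (N : ℕ) : Prop :=
  ∀ u : Fin (N + 1) → ℂ, (∀ i, u i ∈ D ∧ AnalyticAt ℂ f (u i) ∧ deriv f (u i) ≠ 0 ∧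
    f (u i) = f (u 0)) → ∃ i j, i ≠ j ∧ ∃ g : ℂ → ℂ,
      (∀ᶠ s in 𝓝 (u i), g (f s) = fld f s) ∧ ∀ᶠ s in 𝓝 (u j), g (f s) = fld f s

/-- The field `κ` is uniformly locally finitely branched along its projective parameter. -/
def ParBr (κ : ℝ → ℝ) (N : ℕ) (ε : ℝ) : Prop :=
  ∀ (θ : ℝ → ℝ) (f : ℂ → ℂ) (h : ℝ), Param κ θ → 0 < h → (∀ t : ℝ, f t = exp (θ t * I)) →
    MeromorphicOn f {t : ℂ | |t.im| < h} → ∀ t : ℂ, |t.im| < h →
      LBr f (ball t (ε * min 1 (h - |t.im|))) N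

theorem ode_of_fld {g : ℂ → ℂ} {u : ℂ} (hr : Rg f u)
    (hg : ∀ᶠ s in 𝓝 u, g (f s) = fld f s) :
    Ode (fun x => g x / (2 * I * x) - x⁻¹) f u := by
  have h1 : Tendsto f (𝓝[≠] u) (𝓝[≠] (f u)) := hr.1.differentiableAt.hasDerivAt.tendsto_nhdsNE hr.2
  have h0 : ∀ᶠ s in 𝓝[≠] u, f s ≠ 0 := by
    by_cases h : f u = 0
    · filter_upwards [h1.eventually self_mem_nhdsWithin] with s hs
      rw [h] at hs
      exact hs
    · exact (hr.1.continuousAt.eventually_ne h).filter_mono nhdsWithin_le_nhds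
  have h2 : ∀ᶠ s in 𝓝[≠] u, deriv f s ≠ 0 :=
    (hr.1.deriv.continuousAt.eventually_ne hr.2).filter_mono nhdsWithin_le_nhds
  unfold Ode
  filter_upwards [h0, h2, hg.filter_mono nhdsWithin_le_nhds] with s a1 a2 a3
  rw [a3, fld]
  have hI := I_ne_zero
  field_simp
  ring

theorem lval_of_lbr {D : Set ℂ} (hb : LBr f D N)
    (hA : ∀ u ∈ D, ∀ v ∈ D, Rg f u → Rg f v → f u = f v → ∀ g : ℂ → ℂ, Ode g f u → Ode g f v →
      u = v) : LVal f D N := by
  intro u hu
  obtain ⟨i, j, hij, g, g1, g2⟩ := hb u fun i => ⟨(hu i).1, (hu i).2.1.1, (hu i).2.1.2, (hu i).2.2⟩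
  exact ⟨i, j, hij, hA _ (hu i).1 _ (hu j).1 (hu i).2.1 (hu j).2.1
    ((hu i).2.2.trans (hu j).2.2.symm) _ (ode_of_fld (hu i).2.1 g1) (ode_of_fld (hu j).2.1 g2)⟩

theorem close_eq {t u v : ℂ} {r : ℝ} (hr : r ≤ 1 / 2) (hu : u ∈ ball t r) (hv : v ∈ ball t r)
    {n : ℤ} (hn : v = u + n) : u = v := by
  have h1 : dist v u < 1 := by
    have := dist_triangle_right v u t
    rw [mem_ball] at hu hv
    linarith
  rw [hn, dist_eq_norm, add_sub_cancel_left, Complex.norm_intCast, ← Int.cast_abs] at h1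
  have h4 : |n| < 1 := by exact_mod_cast h1
  have h5 : n = 0 := Int.abs_lt_one_iff.mp h4
  rw [hn, h5]
  simp

/-- a curve of finite maximal height -/
theorem ulv_of_max (H : Crv f h) (hM : MaxH f h)
    (hb : ∀ t : ℂ, |t.im| < h → LBr f (ball t (min ε (1 / 2) * min 1 (h - |t.im|))) N) :
    ULV f h N (min ε (1 / 2)) := by
  intro t ht
  have hd : 0 < h - |t.im| := sub_pos.2 ht
  have hle : min ε (1 / 2) * min 1 (h - |t.im|) ≤ 1 / 2 := by
    calc min ε (1 / 2) * min 1 (h - |t.im|) ≤ 1 / 2 * min 1 (h - |t.im|) := by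
          gcongr
          exact min_le_right _ _
      _ ≤ 1 / 2 * 1 := by
          gcongr
          exact min_le_left _ _
      _ = 1 / 2 := by norm_num
  have hsub : ball t (min ε (1 / 2) * min 1 (h - |t.im|)) ⊆ St (-h) h := by
    refine ball_sub_St ?_
    calc min ε (1 / 2) * min 1 (h - |t.im|) ≤ 1 / 2 * min 1 (h - |t.im|) := by
          gcongr
          exact min_le_right _ _
      _ ≤ 1 / 2 * (h - |t.im|) := by
          gcongr
          exact min_le_right _ _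
      _ ≤ h - |t.im| := by linarith
  refine lval_of_lbr (hb t ht) fun u hu v hv r1 r2 huv g o1 o2 => ?_
  obtain ⟨A, B, hA, hAB, hev⟩ := aff_germ r1 r2 o1 o2 huv EventuallyEq.rfl
  have S : Sy f h A B := sy_of_germ H hA (hsub hu) (by rw [hAB]; exact hsub hv)
    (hev.filter_mono nhdsWithin_le_nhds).frequently
  obtain ⟨hA1, n, hn⟩ := S.triv H hM
  exact close_eq hle hu hv (n := n) (by rw [← hAB, hA1, hn]; ring)

theorem LBr.mono {D D' : Set ℂ} (hV : LBr f D N) (hD : D' ⊆ D) : LBr f D' N :=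
  fun u hu => hV u fun i => ⟨hD (hu i).1, (hu i).2⟩

/-- **Theorem BS** with branches, the kernel is rational -/
theorem br_rational (hC : Con k F c) (hε : 0 < ε) (hV : ∀ (h : ℝ) (f : ℂ → ℂ), Crv f h →
      f =ᶠ[𝓝 (0:ℂ)] (fun t => F (t, 0)) → ∀ t : ℂ, |t.im| < h →
        LBr f (ball t (ε * min 1 (h - |t.im|))) N) :
    ∃ A B : ℂ[X], B ≠ 0 ∧ ∀ᶠ x in 𝓝 (F (0, 0)), k x * B.eval x = A.eval x := by
  have hm : 0 < min ε (1 / 2) := lt_min hε (by norm_num)
  rcases dichotomy hC with ⟨h, G, hN, H1, H2⟩ | ⟨f, hA⟩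
  · exfalso
    obtain ⟨Y, L, hL, hf, -⟩ := exists_lab hN
    have hb : ULV (sl G 0) h N (min ε (1 / 2)) := by
      refine ulv_of_max H1 (max_of_nb hN) fun t ht => (hV h _ H1 H2 t ht).mono (ball_subset_ball ?_)
      have : 0 < min 1 (h - |t.im|) := lt_min one_pos (sub_pos.2 ht)
      gcongr
      exact min_le_left _ _
    obtain ⟨C, hC'⟩ := bound_of_ulv hL.on (fun t ht => (hf t ht).1) hm hb
    exact no_nbd_bdd hN (Y := Y) ⟨hL.on, hf⟩ hC'
  · rcases entire_case hA with h | ⟨f', Y, hA', hE⟩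
    · exact h
    · exfalso
      apply hE.nc
      obtain ⟨C, hC, hP⟩ := sch_of_val N
      set δ := min ε (1 / 2) with hδ
      have hb : ∀ t, ‖Y.Q t‖ ≤ C / δ ^ 2 := by
        intro t
        rw [le_div_iff₀ (by positivity)]
        have hpos : 0 < |t.im| + 2 := by positivity
        have h1 := hV (|t.im| + 2) f' (hE.crv _ hpos) hA'.eq t (by linarith)
        have h2 : min 1 (|t.im| + 2 - |t.im|) = 1 := min_eq_left (by linarith)
        rw [h2, mul_one] at h1
        have h3 : LVal f' (ball t δ) N := by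
          refine lval_of_lbr (h1.mono (ball_subset_ball (min_le_left _ _)))
            fun u hu v hv r1 r2 huv g o1 o2 => ?_
          obtain ⟨A, B, hA, hAB, hev⟩ := aff_germ r1 r2 o1 o2 huv EventuallyEq.rfl
          obtain ⟨hA1, n, hn⟩ := hE.nosym A B hA (sym_all hE.crv hA
            (hev.filter_mono nhdsWithin_le_nhds).frequently)
          exact close_eq (min_le_right _ _) hu hv (n := n) (by rw [← hAB, hA1, hn]; ring)
        refine hP Y f' t δ hm ?_ (fun z _ => (hE.quot z).1) h3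
        exact ⟨fun z _ => hE.on.d1 z (mem_univ _), fun z _ => hE.on.d1' z (mem_univ _),
          fun z _ => hE.on.d2 z (mem_univ _), fun z _ => hE.on.d2' z (mem_univ _),
          fun z _ => hE.on.wr z (mem_univ _)⟩
      refine ⟨Y.Q 0, fun t => ?_⟩
      refine (Q_diff hE.on).apply_eq_apply_of_bounded ?_ t 0
      rw [isBounded_iff_forall_norm_le]
      exact ⟨C / δ ^ 2, by rintro _ ⟨t, rfl⟩; exact hb t⟩

theorem fld_neg (s : ℂ) : fld (fun z => f (-z)) s = fld f (-s) := by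
  have h1 : deriv (fun z => f (-z)) = fun z => -deriv f (-z) := by
    funext z
    exact deriv_comp_neg f z
  have h2 : deriv (deriv fun z => f (-z)) s = deriv (deriv f) (-s) := by
    rw [h1, deriv.fun_neg, deriv_comp_neg, neg_neg]
  unfold fld
  rw [h2, h1]
  simp

theorem lbr_of_par {κ : ℝ → ℝ} (hC : Con k F c)
    (hk : ∀ θ : ℝ, k (exp (θ * I)) = -(exp (θ * I))⁻¹ + κ θ / (2 * I * exp (θ * I)))
    (hval : ParBr κ N ε) (H : Crv f h) (h0 : f =ᶠ[𝓝 (0:ℂ)] fun t => F (t, 0)) {t : ℂ}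
    (ht : |t.im| < h) : LBr f (ball t (ε * min 1 (h - |t.im|))) N := by
  have hc : 0 < c := hC.pos
  have H₀ : Crv (fun t => F (t, 0)) c := crv_of_con hC
  obtain ⟨e1, e2⟩ := H.unique H₀ h0
  have hev : ∀ t : ℝ, f =ᶠ[𝓝 (t : ℂ)] fun t => F (t, 0) := by
    intro t
    have hm : 0 < min h c := lt_min H.pos hc
    have h1 := e2 t (by
      rw [mem_St, ofReal_im]
      constructor <;> linarith)
    rw [Filter.EventuallyEq, eventually_nhdsWithin_iff] at h1
    filter_upwards [h1] with s hs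
    by_cases hst : s = t
    · rw [hst]
      exact e1 t
    · exact hs hst
  have ho : ∀ t : ℝ, k (f t) = -(deriv (deriv f) t) / (deriv f t) ^ 2 := by
    intro t
    have hm : (t : ℂ) ∈ St (-c) c := by
      rw [mem_St, ofReal_im]
      constructor <;> linarith
    have h1 := (hC.toDat.ode hm).2
    rw [(hev t).deriv.deriv.eq_of_nhds, (hev t).deriv.eq_of_nhds, (hev t).eq_of_nhds]
    exact h1
  obtain ⟨σ, θ, hσ, hP, hfθ⟩ := exists_param H hk ho
  intro u hu
  have hmer : ∀ x : ℂ, |x.im| < h → MeromorphicAt f x := fun x hx => H.mer x (abs_lt.1 hx)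
  rcases hσ with rfl | rfl
  · refine hval θ f h hP H.pos (fun t => ?_) (fun x hx => hmer x hx) t ht u hu
    have := hfθ t
    rwa [one_mul] at this
  · have hanti : ∀ x : ℂ, AnalyticAt ℂ f x → AnalyticAt ℂ (fun z => f (-z)) (-x) := by
      intro x hx
      have h1 : AnalyticAt ℂ (fun z : ℂ => -z) (-x) := analyticAt_id.neg
      have h2 : AnalyticAt ℂ f (-(-x)) := by rwa [neg_neg]
      exact h2.comp h1
    obtain ⟨i, j, hij, g, hg1, hg2⟩ := hval θ (fun z => f (-z)) h hP H.pos (fun t => by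
      have h1 := hfθ t
      rw [neg_one_mul, ofReal_neg] at h1
      exact h1) (fun x hx => by
      have h1 : MeromorphicAt f (-x) := hmer _ (by
        have : |x.im| < h := hx
        rwa [neg_im, abs_neg])
      exact h1.comp_analyticAt (f := f) (g := fun z : ℂ => -z) (by fun_prop)) (-t)
      (by rwa [neg_im, abs_neg]) (fun i => -u i) (fun i => by
      obtain ⟨h1, h2, h3, h4⟩ := hu i
      refine ⟨?_, hanti _ h2, ?_, ?_⟩
      · rw [neg_im, abs_neg, mem_ball, dist_neg_neg]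
        exact h1
      · rw [deriv_comp_neg, neg_neg]
        exact neg_ne_zero.2 h3
      · show f (-(-u i)) = f (-(-u 0))
        rw [neg_neg, neg_neg]
        exact h4)
    have htr : ∀ x : ℂ, (∀ᶠ s in 𝓝 (-x), g (f (-s)) = fld (fun z => f (-z)) s) →
        ∀ᶠ s in 𝓝 x, g (f s) = fld f s := by
      intro x hx
      have h1 : Tendsto (fun s : ℂ => -s) (𝓝 x) (𝓝 (-x)) := continuous_neg.tendsto x
      filter_upwards [h1.eventually hx] with s hs
      rwa [fld_neg, neg_neg] at hs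
    exact ⟨i, j, hij, g, htr _ hg1, htr _ hg2⟩

open Pool.Agent.MP_ae5b4e_an_hopf in
open Pool.Agent.MP_ae5b4e_an_MET (conic) in
open Pool.Agent.MP_ae5b4e_an_SMG (Fol) in
open Pool.Agent.MP_ae5b4e_an_RG (circ1 CFam smooth_kappa circle_mero) in
/-- **Theorem BS** with branches -/
theorem circle_br {U : ℝ → ℝ → ℝ} {κ : ℝ → ℝ} (hF : Fol circ1 U κ)
    (hreg : ContDiff ℝ ∞ κ ∨ (ContDiffOn ℝ ∞ (fun z : ℝ × ℝ => U z.1 z.2) (Ioo 0 1 ×ˢ univ) ∧
      ∀ c ∈ Ioo (0:ℝ) 1, ∀ t, deriv (fun r => U r t) c < 0)) (hε : 0 < ε)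
    (hval : ParBr κ N ε) :
    ∃ Q E : QuadraticForm ℝ (Fin 3 → ℝ), E.Nondegenerate ∧ circ1.trace = conic E ∧
      (∀ θ, 0 < Q (circ1.Γ θ)) ∧
      ∀ c ∈ Ioo (0:ℝ) 1, ∃ ρ : ℝ, (Q - ρ • E).Nondegenerate ∧
        circ1.leaf U c = conic (Q - ρ • E) := by
  have hs := smooth_kappa circ1 hF hreg
  obtain ⟨k, F, c, hC, hk⟩ := exists_con (CFam.of_fol hF hs)
  exact circle_of_rational hF hreg hC hk (br_rational hC hε fun h f H h0 t ht =>
    lbr_of_par hC hk hval H h0 ht)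

end Pool.Agent.MP_ae5b4e_an_BS
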