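import Pool.Agent.Lib.MP_ae5b4e_an_FV.Fin

/-!
# MP_ae5b4e_an, project BS: from a rational kernel to the pencil
-/

noncomputable section

namespace Pool.Agent.MP_ae5b4e_an_BS

open Complex Set Filter Topology Metric
open scoped ContDiff Polynomial
open Pool.Agent.MP_ae5b4e_an_NBT
open Pool.Agent.MP_ae5b4e_an_SVC
open Pool.Agent.MP_ae5b4e_an_FV (ukern)

open Pool.Agent.MP_ae5b4e_an_hopf in
open Pool.Agent.MP_ae5b4e_an_MET (conic) in
open Pool.Agent.MP_ae5b4e_an_SMG (Fol) in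
open Pool.Agent.MP_ae5b4e_an_RG (circ1 CFam smooth_kappa circle_mero) in
/-- the end of the proof: the kernel of the conic datum is rational -/
theorem circle_of_rational {U : ℝ → ℝ → ℝ} {κ : ℝ → ℝ} (hF : Fol circ1 U κ)
    (hreg : ContDiff ℝ ∞ κ ∨ (ContDiffOn ℝ ∞ (fun z : ℝ × ℝ => U z.1 z.2) (Ioo 0 1 ×ˢ univ) ∧
      ∀ c ∈ Ioo (0:ℝ) 1, ∀ t, deriv (fun r => U r t) c < 0))
    {k : ℂ → ℂ} {F : ℂ × ℂ → ℂ} {c : ℝ} (hC : Con k F c)
    (hk : ∀ θ : ℝ, k (exp (θ * I)) = -(exp (θ * I))⁻¹ + κ θ / (2 * I * exp (θ * I)))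
    (hrat : ∃ A B : ℂ[X], B ≠ 0 ∧ ∀ᶠ x in 𝓝 (F (0, 0)), k x * B.eval x = A.eval x) :
    ∃ Q E : QuadraticForm ℝ (Fin 3 → ℝ), E.Nondegenerate ∧ circ1.trace = conic E ∧
      (∀ θ, 0 < Q (circ1.Γ θ)) ∧
      ∀ c ∈ Ioo (0:ℝ) 1, ∃ ρ : ℝ, (Q - ρ • E).Nondegenerate ∧
        circ1.leaf U c = conic (Q - ρ • E) := by
  have H₀ := crv_of_con hC
  -- the base point
  set θ₀ : ℝ := (F (0, 0)).arg with hθ₀
  have hx₀ : F (0, 0) = exp (θ₀ * I) := by
    have h1 : ‖F (0, 0)‖ = 1 := by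
      have := H₀.circ 0
      rwa [ofReal_zero] at this
    have h2 := norm_mul_exp_arg_mul_I (F (0, 0))
    rw [h1, ofReal_one, one_mul] at h2
    exact h2.symm
  have hne : ∀ θ : ℝ, exp (θ * I) ≠ 0 := fun θ => exp_ne_zero _
  have huk : ∀ θ : ℝ, ukern k (exp (θ * I)) = κ θ := by
    intro θ
    have h1 := hne θ
    unfold ukern
    rw [hk]
    field_simp
    ring
  obtain ⟨P, Q, hQ, hPQ⟩ := hrat
  -- a good point of the circle
  have hcont : Tendsto (fun θ : ℝ => exp (θ * I)) (𝓝 θ₀) (𝓝 (exp (θ₀ * I))) := by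
    have : Continuous fun θ : ℝ => exp (θ * I) := by fun_prop
    exact this.continuousAt
  rw [hx₀] at hPQ
  obtain ⟨δ, hδ, hev⟩ := Metric.eventually_nhds_iff_ball.1 (hcont.eventually hPQ)
  obtain ⟨θ₁, hθ₁, hQ₁⟩ : ∃ θ₁ ∈ Ioo θ₀ (θ₀ + min δ 1), Q.eval (exp (θ₁ * I)) ≠ 0 := by
    by_contra hcon
    push Not at hcon
    have hinj : InjOn (fun θ : ℝ => exp (θ * I)) (Ioo θ₀ (θ₀ + min δ 1)) := by
      intro a ha b hb hab
      obtain ⟨n, hn⟩ := exp_eq_exp_iff_exists_int.1 hab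
      have h1 : (a : ℂ) = b + n * (2 * Real.pi) := by
        have h2 : (I : ℂ) ≠ 0 := I_ne_zero
        apply mul_right_cancel₀ h2
        rw [hn]
        ring
      have h3 : a = b + n * (2 * Real.pi) := by exact_mod_cast h1
      have h4 : min δ 1 ≤ 1 := min_le_right _ _
      have h5 : |(n : ℝ) * (2 * Real.pi)| < 1 := by
        rw [show (n : ℝ) * (2 * Real.pi) = a - b by rw [h3]; ring, abs_lt]
        constructor <;> linarith [ha.1, ha.2, hb.1, hb.2]
      have h6 : n = 0 := by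
        by_contra hn0
        have h7 : (1:ℝ) ≤ |(n:ℝ)| := by
          have := Int.one_le_abs hn0
          exact_mod_cast this
        rw [abs_mul, abs_of_pos Real.two_pi_pos] at h5
        have h8 : (6:ℝ) < 2 * Real.pi := by linarith [Real.pi_gt_three]
        nlinarith
      rw [h3, h6]
      simp
    have hfinite : (Ioo θ₀ (θ₀ + min δ 1)).Finite := by
      refine Set.Finite.of_finite_image (f := fun θ : ℝ => exp (θ * I)) ?_ hinj
      refine (Q.roots.toFinset.finite_toSet).subset ?_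
      rintro _ ⟨θ, hθ, rfl⟩
      simp only [Finset.mem_coe, Multiset.mem_toFinset, Polynomial.mem_roots hQ,
        Polynomial.IsRoot.def]
      exact hcon θ hθ
    exact (Ioo_infinite (by have := lt_min hδ one_pos; linarith)) hfinite
  have hθδ : ∀ᶠ θ : ℝ in 𝓝 θ₁, θ ∈ ball θ₀ δ := by
    refine isOpen_ball.mem_nhds ?_
    rw [mem_ball, Real.dist_eq, abs_lt]
    have h4 : min δ 1 ≤ δ := min_le_left _ _
    constructor <;> linarith [hθ₁.1, hθ₁.2]
  -- the rational field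
  set K₁ : ℂ → ℂ := fun x => 2 * I * x * (P.eval x / Q.eval x + x⁻¹) with hK₁
  have hcount : {z : ℂ | ¬ AnalyticAt ℂ K₁ z}.Countable := by
    have hfinite : (insert (0:ℂ) (Q.roots.toFinset : Set ℂ)).Finite :=
      (Q.roots.toFinset.finite_toSet).insert 0
    refine hfinite.countable.mono fun z hz => ?_
    by_contra hcon
    rw [mem_insert_iff, not_or] at hcon
    obtain ⟨hz0, hzQ⟩ := hcon
    have hQz : Q.eval z ≠ 0 := by
      intro h
      apply hzQ
      simp only [Finset.mem_coe, Multiset.mem_toFinset, Polynomial.mem_roots hQ,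
        Polynomial.IsRoot.def]
      exact h
    apply hz
    have hpoly : ∀ R : ℂ[X], AnalyticAt ℂ (fun x => R.eval x) z := fun R =>
      AnalyticOnNhd.eval_polynomial R z (mem_univ _)
    exact (analyticAt_const.mul analyticAt_id).mul
      (((hpoly P).div (hpoly Q) hQz).add (analyticAt_id.inv hz0))
  refine circle_mero hF hreg hcount (θ₀ := θ₁) ?_
  have hQev : ∀ᶠ θ : ℝ in 𝓝 θ₁, Q.eval (exp (θ * I)) ≠ 0 := by
    have : Continuous fun θ : ℝ => Q.eval (exp (θ * I)) := by fun_prop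
    exact this.continuousAt.eventually_ne hQ₁
  filter_upwards [hθδ, hQev] with θ h1 h2
  have h3 := hev θ h1
  have h4 : k (exp (θ * I)) = P.eval (exp (θ * I)) / Q.eval (exp (θ * I)) := by
    rw [eq_div_iff h2]
    exact h3
  rw [hK₁]
  show _ = 2 * I * exp (θ * I) * (P.eval (exp (θ * I)) / Q.eval (exp (θ * I)) + (exp (θ * I))⁻¹)
  rw [← h4, ← huk θ]
  rfl

end Pool.Agent.MP_ae5b4e_an_BS
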