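import Mathlib
import Pool.Agent.Lib.MP_ae5b4e_an_SVC.Defs
import Pool.Agent.Lib.MP_ae5b4e_an_NB2.Defs

/-!
# MP_ae5b4e_an, project BS (uniformly locally finitely valent developing maps): definitions
-/

noncomputable section

namespace Pool.Agent.MP_ae5b4e_an_BS

open Complex Set Filter Topology Metric
open Pool.Agent.MP_ae5b4e_an_SVC (Rg)

/-- `f` takes every value at most `N` times on `D` (at regular points) -/
def LVal (f : ℂ → ℂ) (D : Set ℂ) (N : ℕ) : Prop :=
  ∀ u : Fin (N + 1) → ℂ, (∀ i, u i ∈ D ∧ Rg f (u i) ∧ f (u i) = f (u 0)) → ∃ i j, i ≠ j ∧ u i = u j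

/-- `f` is finitely valent on all discs `B (t, ε min (1, h - |Im t|))` -/
def ULV (f : ℂ → ℂ) (h : ℝ) (N : ℕ) (ε : ℝ) : Prop :=
  ∀ t : ℂ, |t.im| < h → LVal f (ball t (ε * min 1 (h - |t.im|))) N

/-- The projective parameter of the field `κ` on the circle: `t ↦ θ t` is an increasing solution
of `θ'' = - κ (θ) θ' ^ 2 / 2` of period one. -/
structure Param (κ θ : ℝ → ℝ) : Prop where
  diff : Differentiable ℝ θ
  diff' : Differentiable ℝ (deriv θ)
  pos : ∀ t, 0 < deriv θ t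
  per : ∀ t, θ (t + 1) = θ t + 2 * Real.pi
  ode : ∀ t, deriv (deriv θ) t = -(κ (θ t) / 2) * deriv θ t ^ 2

end Pool.Agent.MP_ae5b4e_an_BS
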