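import Pool.Agent.Lib.MP_ae5b4e_an_BS.Defs
import Pool.Agent.Lib.MP_ae5b4e_an_SVC.Strip

/-!
# MP_ae5b4e_an, project BS: the limit curve in real terms
-/

noncomputable section

namespace Pool.Agent.MP_ae5b4e_an_BS

open Complex Set Filter Topology Metric
open Pool.Agent.MP_ae5b4e_an_SVC (Rg Crv)

private theorem par_ne {f : ℂ → ℂ} {h : ℝ} (H : Crv f h) (t : ℝ) : f t ≠ 0 := by
  intro h0
  have h1 := H.circ t
  rw [h0, norm_zero] at h1
  exact zero_ne_one h1

/-- The logarithmic derivative of the curve. -/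
private theorem par_log {f : ℂ → ℂ} {h : ℝ} (H : Crv f h) : ∃ g g' : ℝ → ℝ,
    (∀ t : ℝ, HasDerivAt g (g' t) t) ∧ (∀ t : ℝ, deriv f t = I * g t * f t) ∧
    ∀ t : ℝ, deriv (deriv f) t = I * g' t * f t - (g t : ℂ) ^ 2 * f t := by
  obtain ⟨q, hq⟩ : ∃ q : ℂ → ℂ, q = fun s => deriv f s / (I * f s) := ⟨_, rfl⟩
  have hF : ∀ t : ℝ, HasDerivAt (fun x : ℝ => f x) (deriv f t) t := fun t =>
    (H.an t).differentiableAt.hasDerivAt.comp_ofReal
  have han : ∀ t : ℝ, AnalyticAt ℂ q t := by
    intro t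
    rw [hq]
    exact (H.an t).deriv.div (analyticAt_const.mul (H.an t)) (mul_ne_zero I_ne_zero (par_ne H t))
  have him : ∀ t : ℝ, (q t).im = 0 := by
    intro t
    have h1 : HasDerivAt (fun x : ℝ => f x * (starRingEnd ℂ) (f x))
        (deriv f t * (starRingEnd ℂ) (f t) + f t * (starRingEnd ℂ) (deriv f t)) t := by
      have h2 : HasDerivAt (fun x : ℝ => (starRingEnd ℂ) (f x)) ((starRingEnd ℂ) (deriv f t)) t :=
        (hF t).star
      exact (hF t).mul h2
    have h3 : (fun x : ℝ => f x * (starRingEnd ℂ) (f x)) = fun _ => (1 : ℂ) := by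
      funext x
      rw [mul_conj, normSq_eq_norm_sq, H.circ]
      norm_num
    rw [h3] at h1
    have h4 := h1.unique (hasDerivAt_const t (1 : ℂ))
    have h5 : (deriv f t * (starRingEnd ℂ) (f t)).re = 0 := by
      have h6 := congrArg Complex.re h4
      rw [add_re, zero_re] at h6
      have h7 : (f t * (starRingEnd ℂ) (deriv f t)).re =
          (deriv f t * (starRingEnd ℂ) (f t)).re := by
        simp only [mul_re, conj_re, conj_im]
        ring
      rw [h7] at h6
      linarith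
    have h8 : q t = -I * (deriv f t * (starRingEnd ℂ) (f t)) := by
      have h9 : f t * (starRingEnd ℂ) (f t) = 1 := by
        have := congrFun h3 t
        exact this
      have h10 : (starRingEnd ℂ) (f t) = (f t)⁻¹ := by
        rw [eq_comm, inv_eq_of_mul_eq_one_right h9]
      rw [hq, h10]
      have h11 := par_ne H t
      field_simp
      rw [I_sq]
      ring
    rw [h8]
    simp only [neg_mul, neg_im, mul_im, I_re, I_im]
    rw [zero_mul, one_mul, zero_add]
    rw [← neg_zero, ← h5]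
  have hg : ∀ t : ℝ, HasDerivAt (fun x : ℝ => (q x).re) (deriv q t).re t := fun t =>
    (han t).differentiableAt.hasDerivAt.real_of_complex
  have hre : ∀ t : ℝ, q t = ((q t).re : ℂ) := by
    intro t
    apply Complex.ext
    · rw [ofReal_re]
    · rw [ofReal_im, him]
  have hqd : ∀ t : ℝ, deriv q t = ((deriv q t).re : ℂ) := by
    intro t
    have h1 : HasDerivAt (fun x : ℝ => q x) (deriv q t) t :=
      (han t).differentiableAt.hasDerivAt.comp_ofReal
    have h2 : HasDerivAt (fun x : ℝ => (((q x).re : ℝ) : ℂ)) ((deriv q t).re : ℂ) t :=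
      (hg t).ofReal_comp
    have h3 : (fun x : ℝ => q x) = fun x : ℝ => (((q x).re : ℝ) : ℂ) := funext hre
    rw [h3] at h1
    exact h1.unique h2
  have hf' : ∀ t : ℝ, deriv f t = I * ((q t).re : ℂ) * f t := by
    intro t
    rw [← hre, hq]
    have h11 := par_ne H t
    field_simp
  refine ⟨fun x => (q x).re, fun x => (deriv q x).re, hg, hf', ?_⟩
  intro t
  have h1 : HasDerivAt (fun x : ℝ => deriv f x) (deriv (deriv f) t) t :=
    (H.an t).deriv.differentiableAt.hasDerivAt.comp_ofReal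
  have h2 : HasDerivAt (fun x : ℝ => I * ((q x).re : ℂ) * f x)
      (I * ((deriv q t).re : ℂ) * f t + I * ((q t).re : ℂ) * deriv f t) t :=
    ((hg t).ofReal_comp.const_mul I).mul (hF t)
  have h3 : (fun x : ℝ => deriv f x) = fun x : ℝ => I * ((q x).re : ℂ) * f x := funext hf'
  rw [h3] at h1
  rw [h1.unique h2, hf' t]
  have h4 : I * ((q t).re : ℂ) * (I * ((q t).re : ℂ) * f t) =
      (I * I) * ((q t).re : ℂ) ^ 2 * f t := by ring
  rw [h4, I_mul_I]
  ring

/-- The lift of the curve. -/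
private theorem par_lift {f : ℂ → ℂ} {h : ℝ} (H : Crv f h) : ∃ g g' θ : ℝ → ℝ,
    (∀ t : ℝ, HasDerivAt θ (g t) t) ∧ (∀ t : ℝ, HasDerivAt g (g' t) t) ∧
    (∀ t : ℝ, f t = exp (θ t * I)) ∧ (∀ t : ℝ, deriv f t = I * g t * f t) ∧
    ∀ t : ℝ, deriv (deriv f) t = I * g' t * f t - (g t : ℂ) ^ 2 * f t := by
  obtain ⟨g, g', h1, h2, h3⟩ := par_log H
  have hc : Continuous g := continuous_iff_continuousAt.2 fun t => (h1 t).continuousAt
  obtain ⟨θ, hθ⟩ : ∃ θ : ℝ → ℝ, θ = fun t => (f 0).arg + ∫ x in (0 : ℝ)..t, g x := ⟨_, rfl⟩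
  have hd : ∀ t : ℝ, HasDerivAt θ (g t) t := by
    intro t
    rw [hθ]
    exact (intervalIntegral.integral_hasDerivAt_right (hc.intervalIntegrable _ _)
      hc.aestronglyMeasurable.stronglyMeasurableAtFilter hc.continuousAt).const_add _
  have h0 : θ 0 = (f 0).arg := by
    rw [hθ]
    simp
  have hW : ∀ t : ℝ, HasDerivAt (fun x : ℝ => f x * exp (-(θ x * I))) 0 t := by
    intro t
    have h4 : HasDerivAt (fun x : ℝ => f x) (deriv f t) t :=
      (H.an t).differentiableAt.hasDerivAt.comp_ofReal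
    have h5 : HasDerivAt (fun x : ℝ => exp (-(θ x * I))) (exp (-(θ t * I)) * (-(g t * I))) t :=
      (((hd t).ofReal_comp.mul_const I).neg).cexp
    have h6 := h4.mul h5
    have h7 : deriv f t * exp (-(θ t * I)) + f t * (exp (-(θ t * I)) * (-(g t * I))) = 0 := by
      rw [h2]
      ring
    rw [h7] at h6
    exact h6
  refine ⟨g, g', θ, hd, h1, ?_, h2, h3⟩
  intro t
  have h8 : f t * exp (-(θ t * I)) = f (0 : ℝ) * exp (-(θ 0 * I)) :=
    is_const_of_deriv_eq_zero (fun x => (hW x).differentiableAt) (fun x => (hW x).deriv) t 0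
  have h9 : f (0 : ℝ) * exp (-(θ 0 * I)) = 1 := by
    rw [h0, exp_neg]
    have h10 := norm_mul_exp_arg_mul_I (f 0)
    have h11 : ‖f 0‖ = 1 := by
      have := H.circ 0
      rwa [ofReal_zero] at this
    rw [h11, ofReal_one, one_mul] at h10
    rw [h10, ofReal_zero]
    refine mul_inv_cancel₀ ?_
    have := par_ne H 0
    rwa [ofReal_zero] at this
  rw [h9, exp_neg] at h8
  have h12 := exp_ne_zero (θ t * I)
  field_simp at h8
  exact h8

/-- `f` is real analytic on the real line with values on the unit circle (`H.an`, `H.circ`), so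
`g s := f'(s) / (I f s)` (`s` real) is real: differentiate `f * conj f = 1`. Put
`θ t = arg (f 0) + ∫ g` (interval integral from `0` to `t` of the real part). Then `f t = exp (I θ t)`
(the derivative of `f * exp (- I θ)` vanishes), `θ' = g ≠ 0` (`H.dr`), so `θ'` has constant sign;
`σ := ± 1` and `θ (σ t)` is increasing (everything below is invariant under `t ↦ - t`). `θ` is `C^∞`
(real parts of analytic functions on the line). Period: `f (t + 1) = f t` gives
`θ (t + 1) = θ t + 2 π n t`, the integer `n t` is constant by continuity, `n ≥ 1`; if `n ≥ 2` there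
is `s` in `(0, 1)` with `θ s = θ 0 + 2 π`, so `f s = f 0`, contradiction to `H.inj`. Ode:
`f' = I θ' f`, `f'' = (I θ'' - θ' ^ 2) f`, so `- f'' / f' ^ 2 = I θ'' / (θ' ^ 2 f) - 1 / f`; compare
with `hk`, `ho`: `κ (θ) = - 2 θ'' / θ' ^ 2`. -/
theorem exists_param {f : ℂ → ℂ} {h : ℝ} {κ : ℝ → ℝ} {k : ℂ → ℂ} (H : Crv f h)
    (hk : ∀ θ : ℝ, k (exp (θ * I)) = -(exp (θ * I))⁻¹ + κ θ / (2 * I * exp (θ * I)))
    (ho : ∀ t : ℝ, k (f t) = -(deriv (deriv f) t) / (deriv f t) ^ 2) :
    ∃ (σ : ℝ) (θ : ℝ → ℝ), (σ = 1 ∨ σ = -1) ∧ Param κ θ ∧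
      ∀ t : ℝ, f ((σ * t : ℝ) : ℂ) = exp (θ t * I) := by
  obtain ⟨g, g', θ₀, hθ, hg, hf, hf', hf''⟩ := par_lift H
  have hc : Continuous g := continuous_iff_continuousAt.2 fun t => (hg t).continuousAt
  have hne : ∀ t, g t ≠ 0 := by
    intro t h0
    apply H.dr t
    rw [hf', h0]
    simp
  -- the sign
  obtain ⟨σ, hσ, hpos⟩ : ∃ σ : ℝ, (σ = 1 ∨ σ = -1) ∧ ∀ t, 0 < σ * g t := by
    rcases lt_or_gt_of_ne (hne 0) with h0 | h0
    · refine ⟨-1, Or.inr rfl, fun t => ?_⟩
      by_contra hcon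
      have h1 : 0 < g t := by
        have := hne t
        rcases lt_or_gt_of_ne this with h2 | h2
        · exfalso
          apply hcon
          linarith
        · exact h2
      obtain ⟨s, hs⟩ := mem_range_of_exists_le_of_exists_ge hc ⟨0, h0.le⟩ ⟨t, h1.le⟩
      exact hne s hs
    · refine ⟨1, Or.inl rfl, fun t => ?_⟩
      by_contra hcon
      have h1 : g t < 0 := by
        have := hne t
        rcases lt_or_gt_of_ne this with h2 | h2
        · exact h2
        · exfalso
          apply hcon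
          linarith
      obtain ⟨s, hs⟩ := mem_range_of_exists_le_of_exists_ge hc ⟨t, h1.le⟩ ⟨0, h0.le⟩
      exact hne s hs
  have hσ2 : σ * σ = 1 := by
    rcases hσ with h0 | h0 <;> rw [h0] <;> norm_num
  obtain ⟨θ, hθdef⟩ : ∃ θ : ℝ → ℝ, θ = fun t => θ₀ (σ * t) := ⟨_, rfl⟩
  have hd : ∀ t : ℝ, HasDerivAt θ (σ * g (σ * t)) t := by
    intro t
    rw [hθdef]
    have h1 : HasDerivAt (fun x : ℝ => σ * x) σ t := by
      simpa using (hasDerivAt_id t).const_mul σ
    have h2 := (hθ (σ * t)).comp t h1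
    rw [mul_comm (g (σ * t)) σ] at h2
    exact h2
  have hderiv : deriv θ = fun t => σ * g (σ * t) := funext fun t => (hd t).deriv
  have hd' : ∀ t : ℝ, HasDerivAt (fun t => σ * g (σ * t)) (g' (σ * t)) t := by
    intro t
    have h1 : HasDerivAt (fun x : ℝ => σ * x) σ t := by
      simpa using (hasDerivAt_id t).const_mul σ
    have h2 := ((hg (σ * t)).comp t h1).const_mul σ
    have h3 : σ * (g' (σ * t) * σ) = g' (σ * t) := by
      rw [mul_comm (g' (σ * t)) σ, ← mul_assoc, hσ2, one_mul]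
    rw [h3] at h2
    exact h2
  have hfθ : ∀ t : ℝ, f ((σ * t : ℝ) : ℂ) = exp (θ t * I) := by
    intro t
    rw [hf, hθdef]
  have hmono : StrictMono θ := strictMono_of_deriv_pos (fun t => by
    rw [hderiv]
    exact hpos _)
  have hcont : Continuous θ := continuous_iff_continuousAt.2 fun t => (hd t).continuousAt
  have hpi := Real.pi_pos
  have hexp : ∀ a b : ℝ, exp (a * I) = exp (b * I) → ∃ n : ℤ, a = b + n * (2 * Real.pi) := by
    intro a b hab
    rw [exp_eq_exp_iff_exists_int] at hab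
    obtain ⟨n, hn⟩ := hab
    refine ⟨n, ?_⟩
    have h1 : (a : ℂ) * I = ((b + n * (2 * Real.pi) : ℝ) : ℂ) * I := by
      rw [hn]
      push_cast
      ring
    exact ofReal_injective (mul_right_cancel₀ I_ne_zero h1)
  have hinj : ∀ s t : ℝ, θ s = θ t + 2 * Real.pi → ∃ n : ℤ, s = t + n := by
    intro s t hst
    have h1 : f ((σ * s : ℝ) : ℂ) = f ((σ * t : ℝ) : ℂ) := by
      rw [hfθ, hfθ, hst]
      have h2 : (((θ t + 2 * Real.pi : ℝ) : ℂ) * I) = θ t * I + 2 * Real.pi * I := by
        push_cast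
        ring
      rw [h2, exp_add, exp_two_pi_mul_I, mul_one]
    obtain ⟨n, hn⟩ := H.inj _ _ h1
    rcases hσ with h0 | h0
    · refine ⟨n, ?_⟩
      rw [h0] at hn
      linarith
    · refine ⟨-n, ?_⟩
      rw [h0] at hn
      push_cast
      linarith
  have hper : ∀ t : ℝ, θ (t + 1) = θ t + 2 * Real.pi := by
    intro t
    have h1 : f ((σ * (t + 1) : ℝ) : ℂ) = f ((σ * t : ℝ) : ℂ) := by
      rcases hσ with h0 | h0
      · have h2 := H.per (σ * t)
        rw [← h2]
        congr 1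
        rw [h0]
        push_cast
        ring
      · have h2 := H.per (σ * (t + 1))
        rw [← h2]
        congr 1
        rw [h0]
        push_cast
        ring
    rw [hfθ, hfθ] at h1
    obtain ⟨n, hn⟩ := hexp _ _ h1
    have h2 : θ t < θ (t + 1) := hmono (by linarith)
    have h3 : 0 < n := by
      by_contra hcon
      have h4 : (n : ℝ) ≤ 0 := by
        have : n ≤ 0 := not_lt.1 hcon
        exact_mod_cast this
      nlinarith
    have h4 : n < 2 := by
      by_contra hcon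
      have h5 : (2 : ℝ) ≤ n := by
        have : 2 ≤ n := not_lt.1 hcon
        exact_mod_cast this
      have h6 : θ t + 2 * Real.pi ∈ Icc (θ t) (θ (t + 1)) := by
        constructor
        · linarith
        · nlinarith
      obtain ⟨s, hs, hs2⟩ := intermediate_value_Icc (by linarith : t ≤ t + 1)
        hcont.continuousOn h6
      have h7 : t < s := by
        rw [← hmono.lt_iff_lt, hs2]
        linarith
      have h8 : s < t + 1 := by
        rw [← hmono.lt_iff_lt, hs2]
        nlinarith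
      obtain ⟨m, hm⟩ := hinj s t hs2
      have h9 : (0 : ℝ) < m := by linarith
      have h10 : (m : ℝ) < 1 := by linarith
      have h11 : (0 : ℤ) < m := by exact_mod_cast h9
      have h12 : m < (1 : ℤ) := by exact_mod_cast h10
      omega
    have h5 : n = 1 := by omega
    rw [hn, h5]
    push_cast
    ring
  refine ⟨σ, θ, hσ, ⟨fun t => (hd t).differentiableAt, ?_, ?_, hper, ?_⟩, hfθ⟩
  · rw [hderiv]
    exact fun t => (hd' t).differentiableAt
  · intro t
    rw [hderiv]
    exact hpos _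
  · intro t
    rw [hderiv, (hd' t).deriv]
    obtain ⟨s, hs⟩ : ∃ s : ℝ, s = σ * t := ⟨_, rfl⟩
    have h1 := ho s
    have h2 : f (s : ℂ) = exp (θ t * I) := by
      rw [hs]
      exact hfθ t
    rw [h2, hk, hf'', hf', h2] at h1
    have h3 : (g s : ℂ) ≠ 0 := ofReal_ne_zero.2 (hne s)
    have h4 := exp_ne_zero (θ t * I)
    have h5 : (κ (θ t) : ℂ) * (g s : ℂ) ^ 2 = -2 * (g' s : ℂ) := by
      have h6 : (κ (θ t) : ℂ) / (2 * I * exp (θ t * I)) =
          (exp (θ t * I))⁻¹ + -(I * (g' s : ℂ) * exp (θ t * I) -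
            (g s : ℂ) ^ 2 * exp (θ t * I)) / (I * (g s : ℂ) * exp (θ t * I)) ^ 2 := by
        rw [← h1]
        ring
      have h7 : (exp (θ t * I))⁻¹ + -(I * (g' s : ℂ) * exp (θ t * I) -
            (g s : ℂ) ^ 2 * exp (θ t * I)) / (I * (g s : ℂ) * exp (θ t * I)) ^ 2 =
          I * (g' s : ℂ) / ((g s : ℂ) ^ 2 * exp (θ t * I)) := by
        have h8 : (I * (g s : ℂ) * exp (θ t * I)) ^ 2 =
            -((g s : ℂ) ^ 2 * exp (θ t * I) * exp (θ t * I)) := by
          rw [mul_pow, mul_pow, I_sq]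
          ring
        rw [h8]
        field_simp
        ring
      rw [h7] at h6
      have h8 := congrArg (fun z : ℂ => z * (2 * I * exp (θ t * I)) * (g s : ℂ) ^ 2) h6
      have h9 : (κ (θ t) : ℂ) / (2 * I * exp (θ t * I)) * (2 * I * exp (θ t * I)) *
          (g s : ℂ) ^ 2 = (κ (θ t) : ℂ) * (g s : ℂ) ^ 2 := by
        rw [div_mul_cancel₀]
        exact mul_ne_zero (mul_ne_zero two_ne_zero I_ne_zero) h4
      have h10 : I * (g' s : ℂ) / ((g s : ℂ) ^ 2 * exp (θ t * I)) *
          (2 * I * exp (θ t * I)) * (g s : ℂ) ^ 2 = (I * I) * 2 * (g' s : ℂ) := by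
        field_simp
      have h11 : (κ (θ t) : ℂ) * (g s : ℂ) ^ 2 = (I * I) * 2 * (g' s : ℂ) :=
        h9.symm.trans (h8.trans h10)
      rw [h11, I_mul_I]
      ring
    have h6 : κ (θ t) * g s ^ 2 = -2 * g' s := by
      exact_mod_cast h5
    have h7 : -(κ (θ t) / 2) * (σ * g s) ^ 2 = -(κ (θ t) * g s ^ 2 / 2) * (σ * σ) := by ring
    rw [h6, hσ2] at h7
    show g' (σ * t) = -(κ (θ t) / 2) * (σ * g (σ * t)) ^ 2
    rw [← hs, h7]
    ring

end Pool.Agent.MP_ae5b4e_an_BS
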