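import Pool.Agent.Lib.MP_ae5b4e_an_BS.SchA
import Pool.Agent.Lib.MP_ae5b4e_an_FV.Pole
import Pool.Agent.Lib.MP_ae5b4e_an_NB2.Sys

/-!
# MP_ae5b4e_an, project BS: the Schwarzian of a finitely valent function
-/

noncomputable section

namespace Pool.Agent.MP_ae5b4e_an_BS

open Complex Set Filter Topology Metric
open Pool.Agent.MP_ae5b4e_an_NB2 (Sys)
open Pool.Agent.MP_ae5b4e_an_FV (NVal quot_an quot_eq)
open Pool.Agent.MP_ae5b4e_an_SVC (Rg)

private lemma SchB_pole {Y : Sys} {S : Set ℂ} (hS : IsOpen S) (hon : Y.On S) {p : ℂ}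
    (hp : p ∈ S) (h0 : Y.y1 p = 0) {V : Set ℂ} (hV : V ∈ 𝓝 p) :
    ∀ᶠ w in 𝓝 (0 : ℂ), ∃ u ∈ V, Y.y2 u ≠ 0 ∧ Y.y1 u / Y.y2 u = w := by
  have hwr := hon.wr p hp
  rw [h0, zero_mul, zero_sub] at hwr
  have hy2 : Y.y2 p ≠ 0 := by
    intro h
    rw [h, mul_zero, neg_zero] at hwr
    exact zero_ne_one hwr
  have a1 : AnalyticAt ℂ Y.y1 p :=
    DifferentiableOn.analyticAt (fun z hz => (hon.d1 z hz).differentiableAt.differentiableWithinAt)
      (hS.mem_nhds hp)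
  have a2 : AnalyticAt ℂ Y.y2 p :=
    DifferentiableOn.analyticAt (fun z hz => (hon.d2 z hz).differentiableAt.differentiableWithinAt)
      (hS.mem_nhds hp)
  have a3 : AnalyticAt ℂ (fun u => Y.y1 u / Y.y2 u) p := a1.div a2 hy2
  have hd : HasDerivAt (fun u => Y.y1 u / Y.y2 u)
      ((Y.y1' p * Y.y2 p - Y.y1 p * Y.y2' p) / Y.y2 p ^ 2) p := (hon.d1 p hp).div (hon.d2 p hp) hy2
  have hd0 : deriv (fun u => Y.y1 u / Y.y2 u) p ≠ 0 := by
    rw [hd.deriv, h0, zero_mul, sub_zero]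
    have : Y.y1' p * Y.y2 p = -1 := by linear_combination -hwr
    rw [this]
    exact div_ne_zero (by norm_num) (pow_ne_zero 2 hy2)
  have hmap := (a3.hasStrictDerivAt).map_nhds_eq hd0
  have e0 : Y.y1 p / Y.y2 p = 0 := by simp [h0]
  rw [e0] at hmap
  have hV2 : V ∩ {u | Y.y2 u ≠ 0} ∈ 𝓝 p :=
    inter_mem hV (a2.continuousAt.eventually_ne hy2)
  have himg : (fun u => Y.y1 u / Y.y2 u) '' (V ∩ {u | Y.y2 u ≠ 0}) ∈ 𝓝 (0 : ℂ) := by
    rw [← hmap]
    exact image_mem_map hV2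
  filter_upwards [himg] with w hw
  obtain ⟨u, hu, rfl⟩ := hw
  exact ⟨u, hu.1, hu.2, rfl⟩

/-- At most `N` zeros of `y1`: this is the argument of `Pool.Agent.MP_ae5b4e_an_FV.pole_free` (file
FV/Pole.lean: copy the private lemma `pole_local`; near each of `N + 1` poles the value `1 / w`
is taken for all small `w ≠ 0`, at a regular point). -/
theorem zeros_le {Y : Sys} {f : ℂ → ℂ} {S : Set ℂ} (hS : IsOpen S) {N : ℕ} (hY : Y.On S)
    (hf : ∀ z ∈ S, Y.y1 z ≠ 0 → f z = Y.y2 z / Y.y1 z) (hN : LVal f S N)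
    (p : Fin (N + 1) → ℂ) (hp : ∀ i, p i ∈ S ∧ Y.y1 (p i) = 0) : ∃ i j, i ≠ j ∧ p i = p j := by
  by_contra hcon
  push Not at hcon
  have hρ : ∃ ρ : ℝ, 0 < ρ ∧ ∀ i j, i ≠ j → 2 * ρ ≤ dist (p i) (p j) := by
    have h1 : ∀ᶠ ρ in 𝓝[>] (0 : ℝ), ∀ i j, i ≠ j → 2 * ρ ≤ dist (p i) (p j) := by
      rw [eventually_all]
      intro i
      rw [eventually_all]
      intro j
      by_cases hij : i = j
      · exact Eventually.of_forall fun _ h => absurd hij h
      · have hpos : 0 < dist (p i) (p j) / 2 := by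
          have := dist_pos.mpr (hcon i j hij)
          linarith
        filter_upwards [Ioo_mem_nhdsGT hpos] with l hl _
        linarith [hl.2]
    obtain ⟨ρ, h2, h3⟩ := (h1.and self_mem_nhdsWithin).exists
    exact ⟨ρ, h3, h2⟩
  obtain ⟨ρ, hρ0, hρ⟩ := hρ
  have hV : ∀ i, ball (p i) ρ ∩ S ∈ 𝓝 (p i) := fun i =>
    inter_mem (ball_mem_nhds _ hρ0) (hS.mem_nhds (hp i).1)
  have hall : ∀ᶠ w in 𝓝 (0 : ℂ), ∀ i, ∃ u ∈ ball (p i) ρ ∩ S, Y.y2 u ≠ 0 ∧ Y.y1 u / Y.y2 u = w := by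
    rw [eventually_all]
    intro i
    exact SchB_pole hS hY (hp i).1 (hp i).2 (hV i)
  obtain ⟨w, hw, hw0⟩ := ((hall.filter_mono nhdsWithin_le_nhds).and
    (self_mem_nhdsWithin : {(0 : ℂ)}ᶜ ∈ 𝓝[≠] (0 : ℂ))).exists
  have hw0 : w ≠ 0 := hw0
  choose u hu hu2 huw using hw
  have hu1 : ∀ i, Y.y1 (u i) ≠ 0 := by
    intro i h1
    apply hw0
    rw [← huw i, h1, zero_div]
  have hfu : ∀ i, f (u i) = w⁻¹ := by
    intro i
    rw [hf _ (hu i).2 (hu1 i), ← huw i, inv_div]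
  obtain ⟨i, j, hij, he⟩ := hN u (fun i => ⟨(hu i).2, by
    obtain ⟨h1, -, h2⟩ := quot_an hS hY hf (hu i).2 (hu1 i)
    exact ⟨h1, h2⟩, by rw [hfu i, hfu 0]⟩)
  have h1 : dist (u i) (p i) < ρ := (hu i).1
  have h2 : dist (u j) (p j) < ρ := (hu j).1
  rw [← he] at h2
  have h3 := dist_triangle_left (p i) (p j) (u i)
  have h4 := hρ i j hij
  linarith

/-- Put `δ = r / (8 (N + 1))`. The `N + 1` annuli `| |z - t| - r (1/4 + (2 j + 1) / (8 (N + 1))) | <
δ`, `0 ≤ j ≤ N`, are disjoint subsets of `ball t r`, so by `zeros_le` one of them contains no zero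
of `y1`. For `z` on its central circle the disc `ball z δ` lies in the annulus, so `sch_an` (the
function is `N`-valent there, all points are regular by `quot_an`) gives
`‖Q z‖ δ ^ 2 ≤ C`. `Q` is analytic on the disc (`Q = (y1' y2)' ...`: see
`Pool.Agent.MP_ae5b4e_an_NB4H.Q_an` or `Q = - y1'' y2' + y2'' y1'` by the Wronskian), so the maximum
principle gives `‖Q t‖ δ ^ 2 ≤ C`. -/
theorem sch_of_val (N : ℕ) : ∃ C > 0, ∀ (Y : Sys) (f : ℂ → ℂ) (t : ℂ) (r : ℝ), 0 < r →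
    Y.On (ball t r) → (∀ z ∈ ball t r, Y.y1 z ≠ 0 → f z = Y.y2 z / Y.y1 z) →
    LVal f (ball t r) N → ‖Y.Q t‖ * r ^ 2 ≤ C := by
  obtain ⟨C, hC, hP⟩ := sch_an N
  have hN0 : (0:ℝ) < 8 * (N + 1) := by positivity
  refine ⟨C * (8 * (N + 1)) ^ 2, by positivity, ?_⟩
  intro Y f t r hr hon hf hN
  set δ : ℝ := r / (8 * (N + 1)) with hδ
  have hδ0 : 0 < δ := by positivity
  have hrδ : r = 8 * (N + 1) * δ := by
    rw [hδ]
    field_simp
  have hS : IsOpen (ball t r) := isOpen_ball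
  -- the radii
  let ρ : Fin (N + 1) → ℝ := fun j => r / 4 + (2 * (j : ℕ) + 1) * δ
  have hρlo : ∀ j, 2 * δ < ρ j := by
    intro j
    have h1 : (0:ℝ) ≤ ((j : ℕ) : ℝ) := Nat.cast_nonneg _
    have h2 : (0:ℝ) ≤ (N : ℝ) := Nat.cast_nonneg _
    show 2 * δ < r / 4 + (2 * ((j : ℕ) : ℝ) + 1) * δ
    nlinarith
  have hρhi : ∀ j, ρ j + δ < r := by
    intro j
    have h1 : ((j : ℕ) : ℝ) ≤ N := by
      exact_mod_cast Nat.lt_succ_iff.1 j.2
    have h2 : (0:ℝ) ≤ (N : ℝ) := Nat.cast_nonneg _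
    show r / 4 + (2 * ((j : ℕ) : ℝ) + 1) * δ + δ < r
    nlinarith [mul_le_mul_of_nonneg_right h1 hδ0.le, mul_nonneg h2 hδ0.le]
  -- a zero-free annulus
  have hex : ∃ j, ∀ z, |dist z t - ρ j| < δ → Y.y1 z ≠ 0 := by
    by_contra hcon
    push Not at hcon
    choose p hp1 hp2 using hcon
    have hpS : ∀ i, p i ∈ ball t r := fun i => by
      have := (abs_lt.1 (hp1 i)).2
      rw [mem_ball]
      linarith [hρhi i]
    obtain ⟨i, j, hij, he⟩ := zeros_le hS hon hf hN p (fun i => ⟨hpS i, hp2 i⟩)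
    have h1 := abs_lt.1 (hp1 i)
    have h2 := abs_lt.1 (hp1 j)
    rw [← he] at h2
    have h3 : ρ i - ρ j = 2 * (((i : ℕ) : ℝ) - ((j : ℕ) : ℝ)) * δ := by
      show r / 4 + (2 * ((i : ℕ) : ℝ) + 1) * δ - (r / 4 + (2 * ((j : ℕ) : ℝ) + 1) * δ) = _
      ring
    have h4 : |((i : ℕ) : ℝ) - ((j : ℕ) : ℝ)| < 1 := by
      rw [abs_lt]
      constructor
      · by_contra hc
        push Not at hc
        nlinarith
      · by_contra hc
        push Not at hc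
        nlinarith
    have h5 : |((i : ℕ) : ℤ) - ((j : ℕ) : ℤ)| < 1 := by
      exact_mod_cast h4
    have h6 : ((i : ℕ) : ℤ) - ((j : ℕ) : ℤ) = 0 := Int.abs_lt_one_iff.1 h5
    exact hij (Fin.ext (by omega))
  obtain ⟨j, hj⟩ := hex
  have hbd : ∀ z ∈ sphere t (ρ j), ‖Y.Q z‖ ≤ C / δ ^ 2 := by
    intro z hz
    rw [mem_sphere] at hz
    have hsub : ∀ w ∈ ball z δ, |dist w t - ρ j| < δ := by
      intro w hw
      rw [← hz]
      exact (abs_dist_sub_le w z t).trans_lt hw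
    have hsub' : ball z δ ⊆ ball t r := fun w hw => by
      have := (abs_lt.1 (hsub w hw)).2
      rw [mem_ball]
      linarith [hρhi j]
    have h1 := hP Y f z δ hδ0
      ⟨fun w hw => hon.d1 w (hsub' hw), fun w hw => hon.d1' w (hsub' hw),
        fun w hw => hon.d2 w (hsub' hw), fun w hw => hon.d2' w (hsub' hw),
        fun w hw => hon.wr w (hsub' hw)⟩
      (fun w hw => hf w (hsub' hw) (hj w (hsub w hw))) (fun w hw => hj w (hsub w hw))
      (fun u hu1 hu2 => hN u fun i => ⟨hsub' (hu1 i), by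
        obtain ⟨h1, -, h2⟩ := quot_an hS hon hf (hsub' (hu1 i)) (hj _ (hsub _ (hu1 i)))
        exact ⟨h1, h2⟩, hu2 i⟩)
    rw [le_div_iff₀ (by positivity)]
    exact h1
  -- analyticity of Q
  have hQan : DifferentiableOn ℂ Y.Q (ball t r) := by
    have a1 := (Sys.an_y1' hon hS)
    have a2 := (Sys.an_y2' hon hS)
    have h1 : DifferentiableOn ℂ
        (fun z => -(deriv Y.y1' z * Y.y2' z) + deriv Y.y2' z * Y.y1' z) (ball t r) :=
      ((a1.deriv.mul a2).neg.add (a2.deriv.mul a1)).differentiableOn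
    refine h1.congr fun z hz => ?_
    rw [(hon.d1' z hz).deriv, (hon.d2' z hz).deriv]
    linear_combination (-(Y.Q z)) * hon.wr z hz
  have hρ0 : ρ j ≠ 0 := by
    have := hρlo j
    intro h
    rw [h] at this
    linarith
  have hcb : closedBall t (ρ j) ⊆ ball t r := closedBall_subset_ball (by linarith [hρhi j])
  have hdc : DiffContOnCl ℂ Y.Q (ball t (ρ j)) := DifferentiableOn.diffContOnCl_ball hQan hcb
  have hmax := Complex.norm_le_of_forall_mem_frontier_norm_le (U := ball t (ρ j)) isBounded_ball hdc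
    (C := C / δ ^ 2) (by
      rw [frontier_ball t hρ0]
      exact hbd) (z := t) (by
      rw [closure_ball t hρ0]
      exact mem_closedBall_self (by linarith [hρlo j]))
  rw [le_div_iff₀ (by positivity)] at hmax
  calc ‖Y.Q t‖ * r ^ 2 = ‖Y.Q t‖ * δ ^ 2 * (8 * (N + 1)) ^ 2 := by
        rw [hrδ]
        ring
    _ ≤ C * (8 * (N + 1)) ^ 2 := mul_le_mul_of_nonneg_right hmax (by positivity)

end Pool.Agent.MP_ae5b4e_an_BS
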