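import Pool.Agent.Lib.MP_ae5b4e_an_BS.Frame
import Pool.Agent.Lib.MP_ae5b4e_an_BS.Circ
import Pool.Agent.Lib.MP_ae5b4e_an_BS.NoBdd
import Pool.Agent.Lib.MP_ae5b4e_an_BS.SchB
import Pool.Agent.Lib.MP_ae5b4e_an_BS.Par

/-!
# MP_ae5b4e_an, project BS: the theorem on uniformly locally finitely valent curves
-/

noncomputable section

namespace Pool.Agent.MP_ae5b4e_an_BS

open Complex Set Filter Topology Metric
open scoped Polynomial ContDiff
open Pool.Agent.MP_ae5b4e_an_NBT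
open Pool.Agent.MP_ae5b4e_an_SVC
open Pool.Agent.MP_ae5b4e_an_FV
open Pool.Agent.MP_ae5b4e_an_NB2 (Sys Lab exists_lab)
open Pool.Agent.MP_ae5b4e_an_NB4H (SysOf)

variable {k f : ℂ → ℂ} {F G : ℂ × ℂ → ℂ} {h c ε : ℝ} {N : ℕ}

theorem LVal.mono {D D' : Set ℂ} (hV : LVal f D N) (hD : D' ⊆ D) : LVal f D' N :=
  fun u hu => hV u fun i => ⟨hD (hu i).1, (hu i).2⟩

theorem ball_sub_St {t : ℂ} {r : ℝ} (hr : r ≤ h - |t.im|) : ball t r ⊆ St (-h) h := by
  intro z hz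
  rw [mem_ball, dist_eq_norm] at hz
  have h1 := (abs_im_le_norm (z - t)).trans_lt hz
  rw [sub_im] at h1
  rw [mem_St, ← abs_lt]
  have h2 : |z.im| ≤ |z.im - t.im| + |t.im| := by
    have := abs_add_le (z.im - t.im) t.im
    rwa [sub_add_cancel] at this
  linarith

/-- the Schwarzian bound on the strip -/
theorem bound_of_ulv {Y : Sys} (hY : Y.On (St (-h) h))
    (hf : ∀ t ∈ St (-h) h, Y.y1 t ≠ 0 → f t = Y.y2 t / Y.y1 t) (hε : 0 < ε)
    (hV : ULV f h N ε) : ∃ C : ℝ, ∀ t ∈ St (-h) h, ‖Y.Q t‖ * (h - |t.im|) ^ 2 ≤ C := by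
  obtain ⟨C, hC, hP⟩ := sch_of_val N
  set δ := min ε 1 with hδ
  have hδ0 : 0 < δ := lt_min hε one_pos
  have hδ1 : δ ≤ 1 := min_le_right _ _
  refine ⟨C / δ ^ 2 * (max 1 h) ^ 2, fun t ht => ?_⟩
  have hd : 0 < h - |t.im| := sub_pos.2 (abs_lt.2 ht)
  have hm : 0 < min 1 (h - |t.im|) := lt_min one_pos hd
  have hr : 0 < δ * min 1 (h - |t.im|) := mul_pos hδ0 hm
  have hrle : δ * min 1 (h - |t.im|) ≤ h - |t.im| := by
    calc δ * min 1 (h - |t.im|) ≤ 1 * min 1 (h - |t.im|) := by gcongr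
      _ ≤ h - |t.im| := by rw [one_mul]; exact min_le_right _ _
  have hsub := ball_sub_St hrle
  have hon : Y.On (ball t (δ * min 1 (h - |t.im|))) :=
    ⟨fun z hz => hY.d1 z (hsub hz), fun z hz => hY.d1' z (hsub hz), fun z hz => hY.d2 z (hsub hz),
      fun z hz => hY.d2' z (hsub hz), fun z hz => hY.wr z (hsub hz)⟩
  have h1 := hP Y f t _ hr hon (fun z hz => hf z (hsub hz))
    ((hV t (abs_lt.2 ht)).mono (ball_subset_ball (by gcongr; exact min_le_left _ _)))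
  have hM : 0 < max 1 h := lt_max_of_lt_left one_pos
  have h2 : h - |t.im| ≤ max 1 h * min 1 (h - |t.im|) := by
    rcases le_total 1 (h - |t.im|) with h3 | h3
    · rw [min_eq_left h3, mul_one]
      have := le_max_right 1 h
      have := abs_nonneg t.im
      linarith
    · rw [min_eq_right h3]
      have := le_max_left 1 h
      nlinarith
  have h3 : ‖Y.Q t‖ * (min 1 (h - |t.im|)) ^ 2 ≤ C / δ ^ 2 := by
    rw [le_div_iff₀ (by positivity)]
    calc ‖Y.Q t‖ * (min 1 (h - |t.im|)) ^ 2 * δ ^ 2 =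
        ‖Y.Q t‖ * (δ * min 1 (h - |t.im|)) ^ 2 := by ring
      _ ≤ C := h1
  calc ‖Y.Q t‖ * (h - |t.im|) ^ 2 ≤ ‖Y.Q t‖ * (max 1 h * min 1 (h - |t.im|)) ^ 2 := by gcongr
    _ = ‖Y.Q t‖ * (min 1 (h - |t.im|)) ^ 2 * (max 1 h) ^ 2 := by ring
    _ ≤ C / δ ^ 2 * (max 1 h) ^ 2 := by gcongr

/-- the potential is entire -/
theorem Q_diff {Y : Sys} (hY : Y.On univ) : Differentiable ℂ Y.Q := by
  have e1 : Differentiable ℂ Y.y1' := fun z => (hY.d1' z (mem_univ _)).differentiableAt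
  have e2 : Differentiable ℂ Y.y2' := fun z => (hY.d2' z (mem_univ _)).differentiableAt
  have h1 : Y.Q = fun w => -deriv Y.y1' w * Y.y2' w + deriv Y.y2' w * Y.y1' w := by
    funext w
    rw [(hY.d1' w (mem_univ _)).deriv, (hY.d2' w (mem_univ _)).deriv]
    have := hY.wr w (mem_univ _)
    linear_combination (-Y.Q w) * this
  rw [h1]
  have e3 : Differentiable ℂ (deriv Y.y1') := e1.deriv
  have e4 : Differentiable ℂ (deriv Y.y2') := e2.deriv
  exact (e3.neg.mul e2).add (e4.mul e1)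

/-- **Theorem BS**, the kernel is rational -/
theorem bs_rational (hC : Con k F c) (hε : 0 < ε) (hV : ∀ (h : ℝ) (f : ℂ → ℂ), Crv f h →
      f =ᶠ[𝓝 (0:ℂ)] (fun t => F (t, 0)) → ULV f h N ε) :
    ∃ A B : ℂ[X], B ≠ 0 ∧ ∀ᶠ x in 𝓝 (F (0, 0)), k x * B.eval x = A.eval x := by
  rcases dichotomy hC with ⟨h, G, hN, H1, H2⟩ | ⟨f, hA⟩
  · exfalso
    obtain ⟨Y, L, hL, hf, -⟩ := exists_lab hN
    obtain ⟨C, hC'⟩ := bound_of_ulv hL.on (fun t ht => (hf t ht).1) hε (hV h _ H1 H2)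
    exact no_nbd_bdd hN (Y := Y) ⟨hL.on, hf⟩ hC'
  · rcases entire_case hA with h | ⟨f', Y, hA', hE⟩
    · exact h
    · exfalso
      apply hE.nc
      obtain ⟨C, hC, hP⟩ := sch_of_val N
      set δ := min ε 1 with hδ
      have hδ0 : 0 < δ := lt_min hε one_pos
      have hb : ∀ t, ‖Y.Q t‖ ≤ C / δ ^ 2 := by
        intro t
        rw [le_div_iff₀ (by positivity)]
        have hpos : 0 < |t.im| + 2 := by positivity
        have h1 := hV (|t.im| + 2) f' (hE.crv _ hpos) hA'.eq t (by linarith)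
        have h2 : min 1 (|t.im| + 2 - |t.im|) = 1 := min_eq_left (by linarith)
        rw [h2, mul_one] at h1
        refine hP Y f' t δ hδ0 ?_ (fun z _ => (hE.quot z).1)
          (h1.mono (ball_subset_ball (min_le_left _ _)))
        exact ⟨fun z _ => hE.on.d1 z (mem_univ _), fun z _ => hE.on.d1' z (mem_univ _),
          fun z _ => hE.on.d2 z (mem_univ _), fun z _ => hE.on.d2' z (mem_univ _),
          fun z _ => hE.on.wr z (mem_univ _)⟩
      refine ⟨Y.Q 0, fun t => ?_⟩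
      refine (Q_diff hE.on).apply_eq_apply_of_bounded ?_ t 0
      rw [isBounded_iff_forall_norm_le]
      exact ⟨C / δ ^ 2, by rintro _ ⟨t, rfl⟩; exact hb t⟩

/-- the hypothesis of the theorem in terms of the projective parameter -/
def ParVal (κ : ℝ → ℝ) (N : ℕ) (ε : ℝ) : Prop :=
  ∀ (θ : ℝ → ℝ) (f : ℂ → ℂ) (h : ℝ), Param κ θ → 0 < h → (∀ t : ℝ, f t = exp (θ t * I)) →
    MeromorphicOn f {t : ℂ | |t.im| < h} → ∀ t : ℂ, |t.im| < h → ∀ u : Fin (N + 1) → ℂ,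
      (∀ i, u i ∈ ball t (ε * min 1 (h - |t.im|)) ∧ AnalyticAt ℂ f (u i) ∧ deriv f (u i) ≠ 0 ∧
        f (u i) = f (u 0)) → ∃ i j, i ≠ j ∧ u i = u j

theorem ulv_of_par {κ : ℝ → ℝ} (hC : Con k F c)
    (hk : ∀ θ : ℝ, k (exp (θ * I)) = -(exp (θ * I))⁻¹ + κ θ / (2 * I * exp (θ * I)))
    (hval : ParVal κ N ε) (H : Crv f h) (h0 : f =ᶠ[𝓝 (0:ℂ)] fun t => F (t, 0)) : ULV f h N ε := by
  have hc : 0 < c := hC.pos
  have H₀ : Crv (fun t => F (t, 0)) c := crv_of_con hC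
  obtain ⟨e1, e2⟩ := H.unique H₀ h0
  have hev : ∀ t : ℝ, f =ᶠ[𝓝 (t : ℂ)] fun t => F (t, 0) := by
    intro t
    have hm : 0 < min h c := lt_min H.pos hc
    have h1 := e2 t (by
      rw [mem_St, ofReal_im]
      constructor <;> linarith)
    rw [Filter.EventuallyEq, eventually_nhdsWithin_iff] at h1
    filter_upwards [h1] with s hs
    by_cases hst : s = t
    · rw [hst]
      exact e1 t
    · exact hs hst
  have ho : ∀ t : ℝ, k (f t) = -(deriv (deriv f) t) / (deriv f t) ^ 2 := by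
    intro t
    have hm : (t : ℂ) ∈ St (-c) c := by
      rw [mem_St, ofReal_im]
      constructor <;> linarith
    have h1 := (hC.toDat.ode hm).2
    rw [(hev t).deriv.deriv.eq_of_nhds, (hev t).deriv.eq_of_nhds, (hev t).eq_of_nhds]
    exact h1
  obtain ⟨σ, θ, hσ, hP, hfθ⟩ := exists_param H hk ho
  intro t ht u hu
  have hmer : ∀ x : ℂ, |x.im| < h → MeromorphicAt f x := fun x hx => H.mer x (abs_lt.1 hx)
  rcases hσ with rfl | rfl
  · refine hval θ f h hP H.pos (fun t => ?_) (fun x hx => hmer x hx) t ht u fun i =>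
      ⟨(hu i).1, (hu i).2.1.1, (hu i).2.1.2, (hu i).2.2⟩
    have := hfθ t
    rwa [one_mul] at this
  · have hanti : ∀ x : ℂ, AnalyticAt ℂ f x → AnalyticAt ℂ (fun z => f (-z)) (-x) := by
      intro x hx
      have h1 : AnalyticAt ℂ (fun z : ℂ => -z) (-x) := analyticAt_id.neg
      have h2 : AnalyticAt ℂ f (-(-x)) := by rwa [neg_neg]
      exact h2.comp h1
    obtain ⟨i, j, hij, he⟩ := hval θ (fun z => f (-z)) h hP H.pos (fun t => by
      have h1 := hfθ t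
      rw [neg_one_mul, ofReal_neg] at h1
      exact h1) (fun x hx => by
      have h1 : MeromorphicAt f (-x) := hmer _ (by
        have : |x.im| < h := hx
        rwa [neg_im, abs_neg])
      exact h1.comp_analyticAt (f := f) (g := fun z : ℂ => -z) (by fun_prop)) (-t)
      (by rwa [neg_im, abs_neg]) (fun i => -u i) (fun i => by
      obtain ⟨h1, ⟨h2, h3⟩, h4⟩ := hu i
      refine ⟨?_, hanti _ h2, ?_, ?_⟩
      · rw [neg_im, abs_neg, mem_ball, dist_neg_neg]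
        exact h1
      · rw [deriv_comp_neg, neg_neg]
        exact neg_ne_zero.2 h3
      · rw [neg_neg, neg_neg]
        exact h4)
    exact ⟨i, j, hij, neg_injective he⟩

open Pool.Agent.MP_ae5b4e_an_hopf in
open Pool.Agent.MP_ae5b4e_an_MET (conic) in
open Pool.Agent.MP_ae5b4e_an_SMG (Fol) in
open Pool.Agent.MP_ae5b4e_an_RG (circ1 CFam smooth_kappa circle_mero) in
/-- **Theorem BS** -/
theorem circle_bs {U : ℝ → ℝ → ℝ} {κ : ℝ → ℝ} (hF : Fol circ1 U κ)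
    (hreg : ContDiff ℝ ∞ κ ∨ (ContDiffOn ℝ ∞ (fun z : ℝ × ℝ => U z.1 z.2) (Ioo 0 1 ×ˢ univ) ∧
      ∀ c ∈ Ioo (0:ℝ) 1, ∀ t, deriv (fun r => U r t) c < 0)) (hε : 0 < ε)
    (hval : ParVal κ N ε) :
    ∃ Q E : QuadraticForm ℝ (Fin 3 → ℝ), E.Nondegenerate ∧ circ1.trace = conic E ∧
      (∀ θ, 0 < Q (circ1.Γ θ)) ∧
      ∀ c ∈ Ioo (0:ℝ) 1, ∃ ρ : ℝ, (Q - ρ • E).Nondegenerate ∧
        circ1.leaf U c = conic (Q - ρ • E) := by
  have hs := smooth_kappa circ1 hF hreg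
  obtain ⟨k, F, c, hC, hk⟩ := exists_con (CFam.of_fol hF hs)
  exact circle_of_rational hF hreg hC hk (bs_rational hC hε fun h f H h0 =>
    ulv_of_par hC hk hval H h0)

end Pool.Agent.MP_ae5b4e_an_BS
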