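import Mathlib
import Pool.Agent.Lib.MP_ae5b4e_an_BS.Brn

/-!
# MP_ae5b4e_an: foliations near a conic, fields of involutions with locally finite branching

After a projective map the conic `γ` is the unit circle.  The leaves are closed curves of the
projective plane, `0 < c < 1`, which converge to `γ` for `c → 0`; they are only continuous.  On the
tangent line to `γ` at the point with angle `θ` we use the coordinate `u` (`u = ∞` at the tangency
point, `1/u` is the signed distance from it); a projective involution fixing the tangency point is
`u ↦ κ θ - u`.  We assume that `κ` is smooth (automatic for a smooth foliation).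

The field has a canonical projective parameter `t`: an increasing solution `θ = θ (t)` of
`θ'' = - κ (θ) θ' ^ 2 / 2` with `θ (t + 1) = θ (t) + 2 π` (structure `Param`).  Let
`f = exp (i θ)` extend meromorphically to the strip `|Im t| < h`.  Then
`fld f = 2 i (1 - f f'' / f' ^ 2)` is the continuation of `κ (θ (t))`.  The hypothesis is that the
field is uniformly locally finitely branched along this parameter: among `N + 1` regular points of a
disc `B (t, ε min (1, h - |Im t|))` at which `f` has the same value `x`, there are two which carry
the same branch of the field near `x`.  This holds with `ε = 1` if the meromorphic continuation of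
`κ` from the circle to the complex domain has at most `N` branches over every point.  It also holds,
with infinitely many branches allowed, if `f` takes no value more than `N` times on these discs; so
it holds whenever the Schwarzian derivative of `f` is bounded by `C / (h - |Im t|) ^ 2`.  It holds
for all pencils of conics.  Nothing else is assumed: no analyticity of the foliation, no first
integral, no symmetry and nothing about periodic orbits, and the foliated neighbourhood may be
arbitrarily thin.

Idea of the proof.  (0) `κ` is real-analytic.  Let `z` be a complex coordinate of the conic.  The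
tangent lines through the vertices of a polygon inscribed in a leaf satisfy
`1/(z⁺ - z) + 1/(z⁻ - z) = k z`, and there is `F (t, ρ)`, holomorphic near `ℝ × {0}` and
`1`-periodic in `t`, such that `F (t + j ρ, ρ)`, `j ∈ ℤ`, are the vertices and `f = F (·, 0)`
satisfies `k (f) = - f'' / f' ^ 2`.
(1) Let `h` be the maximal height such that `F` is meromorphic near `{|Im t| < h} × {0}`.  If `h` is
finite, then `F` is regular at no point of the line `Im t = h` (Theorem NB_1), `f` is locally
univalent in the strip, without affine symmetries except the period, and by the hypothesis and the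
theory of finitely valent functions the Schwarzian `2 Q` of `f` satisfies
`|Q| (h - |Im t|) ^ 2 ≤ C`.
(2) Theorem NB_4: this is impossible.  Fix `ρ = 1 / q`.  The vertices are `f (l_0), ...,
f (l_{q-1})`; the closed chains of labels `(l_0, ..., l_{q-1})` which solve the `q` equations of the
polygon and have the same product of the squares of the sides form an analytic set.  A bounded
strictly plurisubharmonic function of pairs of labels, built from the bound of the Schwarzian, shows
that a connected set of chains contains chains for which one label comes to the boundary line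
in such a way that it separates from all others.  The limits of the rescaled curves satisfy an
algebraic differential equation, omit values near the boundary, and a curve of this kind is
constant.
(3) If `h` is infinite and `f` is locally univalent without symmetries, then `Q` is bounded by the
hypothesis, so `Q` is constant by Liouville's theorem.  So `f` is a Möbius transform of
`exp (2 π i t)`, or it has a symmetry and is an elliptic function.  In both cases `k` is algebraic,
and the theorem on algebraic fields shows that `k` is rational and that the leaves are conics of a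
pencil.
-/

noncomputable section

namespace Pool.Agent.Lib.MP_ae5b4e_an_BS.LocFin

open Real Set Filter Topology Metric
open scoped ContDiff
open Pool.Agent.MP_ae5b4e_an_hopf
open Pool.Agent.MP_ae5b4e_an_MET (conic)
open Pool.Agent.MP_ae5b4e_an_RG (circ1)
open Pool.Agent.MP_ae5b4e_an_BS (Param fld)

/-- Continuous families of closed curves around the unit circle with projective involutions on the
tangent lines, whose field is smooth and uniformly locally finitely branched along its projective
parameter, consist of conics of a pencil. -/
theorem result (U : ℝ → ℝ → ℝ) (κ : ℝ → ℝ) (N : ℕ) (ε : ℝ) (hε : 0 < ε)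
    (hbr : ∀ (θ : ℝ → ℝ) (f : ℂ → ℂ) (h : ℝ), Param κ θ → 0 < h →
      (∀ t : ℝ, f t = Complex.exp (θ t * Complex.I)) → MeromorphicOn f {t : ℂ | |t.im| < h} →
      ∀ t : ℂ, |t.im| < h → ∀ u : Fin (N + 1) → ℂ,
        (∀ i, u i ∈ ball t (ε * min 1 (h - |t.im|)) ∧ AnalyticAt ℂ f (u i) ∧
          deriv f (u i) ≠ 0 ∧ f (u i) = f (u 0)) →
        ∃ i j, i ≠ j ∧ ∃ g : ℂ → ℂ, (∀ᶠ s in 𝓝 (u i), g (f s) = fld f s) ∧
          ∀ᶠ s in 𝓝 (u j), g (f s) = fld f s)
    (hcont : ContinuousOn (fun z : ℝ × ℝ => U z.1 z.2) (Ioo 0 1 ×ˢ univ))
    (hper : ∀ c ∈ Ioo (0:ℝ) 1, ∀ θ, U c (θ + 2 * π) = U c θ)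
    (hsimple : ∀ c ∈ Ioo (0:ℝ) 1, ∀ θ θ', circ1.pt θ (U c θ) = circ1.pt θ' (U c θ') →
      ∃ n : ℤ, θ' = θ + n * (2 * π))
    (hanti : ∀ θ, StrictAntiOn (fun c => U c θ) (Ioo 0 1))
    (hlim : ∀ θ, Tendsto (fun c => U c θ) (𝓝[>] 0) atTop)
    (hreg : ContDiff ℝ ∞ κ ∨ (ContDiffOn ℝ ∞ (fun z : ℝ × ℝ => U z.1 z.2) (Ioo 0 1 ×ˢ univ) ∧
      ∀ c ∈ Ioo (0:ℝ) 1, ∀ θ, deriv (fun r => U r θ) c < 0))
    (hproj : ∀ c ∈ Ioo (0:ℝ) 1, ∀ θ u v, u ≠ v → circ1.pt θ u ∈ circ1.leaf U c →
      circ1.pt θ v ∈ circ1.leaf U c → u + v = κ θ) :
    ∃ Q E : QuadraticForm ℝ (Fin 3 → ℝ), E.Nondegenerate ∧ circ1.trace = conic E ∧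
      (∀ θ, 0 < Q (circ1.Γ θ)) ∧
      ∀ c ∈ Ioo (0:ℝ) 1, ∃ ρ : ℝ, (Q - ρ • E).Nondegenerate ∧
        circ1.leaf U c = conic (Q - ρ • E) :=
  Pool.Agent.MP_ae5b4e_an_BS.circle_br
    ⟨hcont, hper, hsimple, fun _ hc _ hc' hlt t => hanti t hc hc' hlt, hlim, hproj⟩ hreg hε hbr

end Pool.Agent.Lib.MP_ae5b4e_an_BS.LocFin
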