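import Pool.Agent.Lib.MP_ae5b4e_an_BS.Defs
import Pool.Agent.Lib.MP_ae5b4e_an_FV.ArcB

/-!
# MP_ae5b4e_an, project BS: the Schwarzian of a finitely valent function without poles
-/

noncomputable section

namespace Pool.Agent.MP_ae5b4e_an_BS

open Complex Set Filter Topology Metric
open Pool.Agent.MP_ae5b4e_an_NB2 (Sys)
open Pool.Agent.MP_ae5b4e_an_FV (NVal presch quot_an quot_second)

/-- The computation is the second half of the proof of `Pool.Agent.MP_ae5b4e_an_FV.arc_of_val`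
(file FV/ArcB.lean: `hdiff`, `hne`, `hB`, `hder`, `hcau`, `hQ`, `h1` ... `h5`), with `ball t d`
replaced by `ball t r`: `C' = 2 C + C ^ 2` works. -/
theorem sch_an (N : ℕ) : ∃ C > 0, ∀ (Y : Sys) (f : ℂ → ℂ) (t : ℂ) (r : ℝ), 0 < r →
    Y.On (ball t r) → (∀ z ∈ ball t r, f z = Y.y2 z / Y.y1 z) → (∀ z ∈ ball t r, Y.y1 z ≠ 0) →
    NVal f (ball t r) N → ‖Y.Q t‖ * r ^ 2 ≤ C := by
  obtain ⟨C, hC, hP⟩ := presch N
  refine ⟨2 * C + C ^ 2, by positivity, ?_⟩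
  intro Y f t d hd hon hf' hy1 hNb
  have hf : ∀ z ∈ ball t d, Y.y1 z ≠ 0 → f z = Y.y2 z / Y.y1 z := fun z hz _ => hf' z hz
  have hO : IsOpen (ball t d) := isOpen_ball
  have hdiff : DifferentiableOn ℂ f (ball t d) := fun z hz =>
    (quot_an hO hon hf hz (hy1 z hz)).1.differentiableAt.differentiableWithinAt
  have hne : ∀ z ∈ ball t d, deriv f z ≠ 0 := fun z hz =>
    (quot_an hO hon hf hz (hy1 z hz)).2.2
  have hB : ∀ z ∈ ball t d, 2 * ‖Y.y1' z / Y.y1 z‖ * (d - dist z t) ≤ C := by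
    intro z hz
    have h1 := hP f t d hd hdiff hne hNb z hz
    rw [quot_second hO hon hf hz (hy1 z hz), norm_mul] at h1
    have h2 : ‖(-2 : ℂ)‖ = 2 := by simp
    rwa [h2] at h1
  have hder : ∀ z ∈ ball t d, HasDerivAt (fun w => Y.y1' w / Y.y1 w)
      (-Y.Q z - (Y.y1' z / Y.y1 z) ^ 2) z := by
    intro z hz
    have h1 := (hon.d1' z hz).div (hon.d1 z hz) (hy1 z hz)
    have h2 := hy1 z hz
    refine h1.congr_deriv ?_
    field_simp
  have hcb : closedBall t (d / 2) ⊆ ball t d := closedBall_subset_ball (by linarith)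
  have hdc : DiffContOnCl ℂ (fun w => Y.y1' w / Y.y1 w) (ball t (d / 2)) := by
    refine DifferentiableOn.diffContOnCl_ball (U := ball t d) ?_ hcb
    exact fun z hz => (hder z hz).differentiableAt.differentiableWithinAt
  have hcau := norm_deriv_le_of_forall_mem_sphere_norm_le (by linarith : (0:ℝ) < d / 2) hdc
    (C := C / d) (by
      intro z hz
      have h1 := hB z (hcb (sphere_subset_closedBall hz))
      rw [mem_sphere] at hz
      rw [hz] at h1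
      rw [le_div_iff₀ hd]
      have h2 : d - d / 2 = d / 2 := by ring
      rw [h2] at h1
      linarith)
  have ht0 : t ∈ ball t d := mem_ball_self hd
  rw [(hder t ht0).deriv] at hcau
  have hb0 := hB t ht0
  rw [dist_self, sub_zero] at hb0
  set b : ℂ := Y.y1' t / Y.y1 t with hbdef
  have hQ : ‖Y.Q t‖ ≤ ‖-Y.Q t - b ^ 2‖ + ‖b‖ ^ 2 := by
    have h1 : Y.Q t = -((-Y.Q t - b ^ 2) + b ^ 2) := by ring
    calc ‖Y.Q t‖ = ‖-((-Y.Q t - b ^ 2) + b ^ 2)‖ := by rw [← h1]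
      _ = ‖(-Y.Q t - b ^ 2) + b ^ 2‖ := norm_neg _
      _ ≤ ‖-Y.Q t - b ^ 2‖ + ‖b ^ 2‖ := norm_add_le _ _
      _ = ‖-Y.Q t - b ^ 2‖ + ‖b‖ ^ 2 := by rw [norm_pow]
  have h1 : ‖-Y.Q t - b ^ 2‖ * d ^ 2 ≤ 2 * C := by
    have h2 : C / d / (d / 2) * d ^ 2 = 2 * C := by
      field_simp
    calc ‖-Y.Q t - b ^ 2‖ * d ^ 2 ≤ C / d / (d / 2) * d ^ 2 :=
          mul_le_mul_of_nonneg_right hcau (by positivity)
      _ = 2 * C := h2
  have h3 : ‖b‖ * d ≤ C := by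
    have := mul_nonneg (norm_nonneg b) hd.le
    nlinarith
  have h4 : ‖b‖ ^ 2 * d ^ 2 ≤ C ^ 2 := by
    rw [← mul_pow]
    exact pow_le_pow_left₀ (mul_nonneg (norm_nonneg b) hd.le) h3 2
  have h5 : ‖Y.Q t‖ * d ^ 2 ≤ (‖-Y.Q t - b ^ 2‖ + ‖b‖ ^ 2) * d ^ 2 :=
    mul_le_mul_of_nonneg_right hQ (by positivity)
  nlinarith

end Pool.Agent.MP_ae5b4e_an_BS
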